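import Pool.Agent.Run7.h782.GS.Defs

/-!
The universal gap: fast waves of size `C ν` in the critical norm. Definitions and statements.
-/

set_option autoImplicit false

open MeasureTheory Set Filter Topology
open scoped ContDiff ENNReal

namespace Pool.Agent.Run7.h969.GG

open H459R3.NS Pool.Agent.Run7.h782 Pool.Agent.Run7.h782.GD Pool.Agent.Run7.h782.GS

/-- **Piece Q1** (decomposition of a finite field into Reynolds stresses of shear profiles). -/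
def StmDec : Prop := ∃ C : ℝ, 0 < C ∧ ∀ (Z : Finset K3) (z : Cf), (0 : K3) ∉ Z →
  (∀ k ∉ Z, z k = 0) → Herm z → Dv z → ∀ η : ℝ, 0 < η →
  ∃ (J : ℕ) (n : Fin J → K3) (s : Fin J → Cf) (P : Finset K3),
    (∀ j, n j ≠ 0) ∧ (∀ j, ∀ p ∉ P, s j p = 0) ∧ (∀ j, Herm (s j)) ∧
    (∀ j p, kd (n j) (s j p) = 0) ∧
    (∑ j, ∑ p ∈ P, ‖s j p‖ ≤ C * Real.sqrt (∑ k ∈ Z, ‖z k‖ / len k)) ∧
    (∀ k ∉ P, z k - ∑ j, nl (s j) (s j) k = 0) ∧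
    ∑ k ∈ P, ‖z k - ∑ j, nl (s j) (s j) k‖ / len k ≤ η

/-- The waves with profile `s` and frequencies near `± N n`. -/
noncomputable def wv (N : ℕ) (n : K3) (s : Cf) : Cf :=
  fun k => prj k (s (k - N • n)) + prj k (s (k + N • n))

/-- **Piece Q2** (one unit). The low part of the self interaction of the waves is twice that of
the profile, everything else vanishes in the limit of high frequencies. -/
def StmUnit : Prop := ∀ (n : K3) (s : Cf) (P : Finset K3), n ≠ 0 → (∀ p ∉ P, s p = 0) →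
  Herm s → (∀ p, kd n (s p) = 0) → ∀ ε : ℝ, 0 < ε → ∀ᶠ N : ℕ in atTop, ∀ B : Finset K3,
    ∑ k ∈ B, ‖nl (wv N n s) (wv N n s) k - (2 : ℂ) • nl s s k‖ / len k ≤ ε

/-- **Piece Q3** (approximate solutions). As in `StmApp2`, with a bound of the waves in the sum
norm of order `-1` (which is not small). -/
def StmApp3 : Prop := ∃ C₀ : ℝ, 0 < C₀ ∧ ∀ (ν : ℝ), 0 < ν → ∀ (Z : Finset K3) (z : Cf),
  (0 : K3) ∉ Z → (∀ k ∉ Z, z k = 0) → Herm z → Dv z →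
  ∀ δ : ℝ, 0 < δ → ∀ R η : ℝ, 0 < η →
  ∃ (B : Finset K3) (v F : ℝ → Cf) (g : ℝ → ℝ) (w : Cf), Appr ν B v F ∧ Continuous g ∧
    (∀ t, 0 ≤ t → ∑ k ∈ B, ‖F t k‖ / len k ≤ g t) ∧
    (∀ T, 0 ≤ T → ∫ t in (0 : ℝ)..T, g t ≤ η) ∧
    (∀ T, 0 ≤ T → ∫ t in (0 : ℝ)..T, (∑ k ∈ B, ‖v t k‖) ^ 2
      ≤ C₀ * ∑ k ∈ Z, ‖z k‖ / len k + 1) ∧
    (∀ k, v 0 k = z k + w k) ∧ (∀ k ∉ B, w k = 0) ∧ (∀ k, len k ≤ R → w k = 0) ∧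
    (∑ k ∈ B, ‖w k‖ / len k ≤ C₀ * Real.sqrt (ν * ∑ k ∈ Z, ‖z k‖ / len k)) ∧
    (∀ t, 0 ≤ t → ∑ k ∈ B, ‖v t k‖ / len k
      ≤ C₀ * (∑ k ∈ Z, ‖z k‖ / len k) + C₀ * Real.sqrt (ν * ∑ k ∈ Z, ‖z k‖ / len k) + η) ∧
    ∀ t, δ ≤ t → ∑ k ∈ B, len k * ‖v t k‖ ≤ δ * Real.exp (-t)

/-- **Piece Q4** (the step with waves bounded in the sum norm of order `-1`), from `StmT1`,
`StmApp3`, `StmInt`, `StmProp` exactly as `StmStep`. -/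
def StmStepX : Prop := ∃ C₀ : ℝ, 0 < C₀ ∧ ∀ (ν : ℝ), 0 < ν → ∀ U : ℝ → Cf, Tg ν U →
  ∀ (Z : Finset K3) (z : Cf), (0 : K3) ∉ Z → (∀ k ∉ Z, z k = 0) → Herm z → Dv z →
  ∀ ε : ℝ, 0 < ε → ∀ R : ℝ,
  ∃ (B : Finset K3) (w : Cf) (a : ℝ → Cf), CSol ν a ∧ Tg ν a ∧
    (∀ k, a 0 k = z k + w k) ∧ (∀ k ∉ B, w k = 0) ∧ (∀ k, len k ≤ R → w k = 0) ∧
    (∑ k ∈ B, ‖w k‖ / len k ≤ C₀ * Real.sqrt (ν * ∑' k, ‖z k - U 0 k‖ / len k)) ∧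
    (∀ t, 0 ≤ t → ∀ A : Finset K3, ∑ k ∈ A, ‖a t k - U t k‖ / len k
      ≤ C₀ * (∑' k, ‖z k - U 0 k‖ / len k)
        + C₀ * Real.sqrt (ν * ∑' k, ‖z k - U 0 k‖ / len k) + ε) ∧
    ∀ t, ε ≤ t → ∀ A : Finset K3, ∑ k ∈ A, ‖a t k - U t k‖ ≤ ε

/-- **Piece Q5** (finitely many steps `StmStepX`, then one step `StmStep`). As `StmStep` with the
universal bound `C₀ ν min (ν, Γ)`. -/
def StmStepU : Prop := ∃ C₀ : ℝ, 0 < C₀ ∧ ∀ (ν : ℝ), 0 < ν → ∀ U : ℝ → Cf, Tg ν U →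
  ∀ (Z : Finset K3) (z : Cf), (0 : K3) ∉ Z → (∀ k ∉ Z, z k = 0) → Herm z → Dv z →
  ∀ ε : ℝ, 0 < ε → ∀ R : ℝ,
  ∃ (B : Finset K3) (w : Cf) (h : ℝ → ℝ) (a : ℝ → Cf), CSol ν a ∧ Tg ν a ∧
    (∀ k, a 0 k = z k + w k) ∧ (∀ k ∉ B, w k = 0) ∧ (∀ k, len k ≤ R → w k = 0) ∧
    Continuous h ∧ (∀ s, 0 < s → h s ≤ ε / Real.sqrt s) ∧
    (∀ T, 0 ≤ T → ∫ s in (0 : ℝ)..T, h s ^ 2
      ≤ C₀ * ν * min ν (∑' k, ‖z k - U 0 k‖ / len k)) ∧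
    (∀ s, 0 ≤ s → ∑ k ∈ B, ht s k * ‖w k‖ ≤ h s) ∧
    ∀ t, ε ≤ t → ∀ A : Finset K3, ∑ k ∈ A, ‖a t k - U t k‖ ≤ ε

/-- **The theorem** (`StmFlow` with a universal bound of the waves): every smooth field `u₀` and
every global smooth solution `U` with the same mean are joined by global smooth solutions `u`,
from `u₀ + w` to `U`, where `w` has arbitrarily high frequencies, is as small as one likes in the
critical Besov spaces with indices `∞, q > 2`, and is at most `C ν` in the one with indices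
`∞, 2`. -/
def StmGap : Prop := ∃ C : ℝ, 0 < C ∧ ∀ (ν : ℝ), 0 < ν → ∀ u₀ : V → V, ContDiff ℝ ∞ u₀ →
  Per u₀ → (∀ x, ∑ i, pd i (fun y => u₀ y i) x = 0) → ∀ (U : ℝ → V → V) (P : ℝ → V → ℝ),
  (∀ T, IsSol ν T U P) → (∀ i, ∫ x in cube, U 0 x i = ∫ x in cube, u₀ x i) →
  ∀ δ : ℝ, 0 < δ → ∀ R : ℝ,
  ∃ (u : ℝ → V → V) (p : ℝ → V → ℝ), (∀ T, IsSol ν T u p) ∧
    (∀ k, len k ≤ R → vf (u 0) k = vf u₀ k) ∧
    (∃ h : ℝ → ℝ, (∀ t, 0 < t → (∀ x i, |heat t (fun y => u 0 y i - u₀ y i) x| ≤ h t) ∧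
        h t ≤ δ / Real.sqrt t) ∧
      IntegrableOn (fun t => h t ^ 2) (Ioi 0) ∧
      ∫ t in Ioi (0 : ℝ), h t ^ 2
        ≤ C * ν * min ν (∑' k, ‖vf u₀ k - vf (U 0) k‖ / len k)) ∧
    ∀ t, δ ≤ t → ∀ x i, |u t x i - U t x i| ≤ δ

end Pool.Agent.Run7.h969.GG
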