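import Pool.Agent.Run7.h969.GG.Res

/-!
The approximate solutions: assembly.
-/

set_option autoImplicit false

open MeasureTheory Set Filter Topology
open scoped ContDiff ComplexConjugate NNReal

namespace Pool.Agent.Run7.h969.GG

open H459R3.NS Pool.Agent.Run7.h782 Pool.Agent.Run7.h782.GD Pool.Agent.Run7.h782.GS

theorem ev_exp (K₁ K₂ b δ : ℝ) (hb : 0 < b) (hδ : 0 < δ) (m : ℕ) :
    ∀ᶠ N : ℕ in atTop, Real.exp (-(b * N)) * (K₁ + K₂ * (N : ℝ) ^ m) ≤ δ := by
  have h1 : Tendsto (fun x : ℝ => x ^ (0 : ℝ) * Real.exp (-b * x)) atTop (𝓝 0) :=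
    tendsto_rpow_mul_exp_neg_mul_atTop_nhds_zero 0 b hb
  have h2 : Tendsto (fun x : ℝ => x ^ ((m : ℕ) : ℝ) * Real.exp (-b * x)) atTop (𝓝 0) :=
    tendsto_rpow_mul_exp_neg_mul_atTop_nhds_zero m b hb
  have h3 : Tendsto (fun x : ℝ => K₁ * (x ^ (0 : ℝ) * Real.exp (-b * x))
      + K₂ * (x ^ ((m : ℕ) : ℝ) * Real.exp (-b * x))) atTop (𝓝 0) := by
    have := (h1.const_mul K₁).add (h2.const_mul K₂)
    simpa using this
  have h4 := (h3.comp tendsto_natCast_atTop_atTop).eventually_le_const hδ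
  filter_upwards [h4] with N hN
  simp only [Function.comp_apply, Real.rpow_zero, one_mul, Real.rpow_natCast, neg_mul] at hN
  linarith

section
variable {J : ℕ} {ν : ℝ} {n : Fin J → K3} {s : Fin J → Cf} {P : Finset K3} {z' : Cf}
  {Λ nm X' : ℝ} {N : ℕ}
variable (D : Dat n s P z' Λ nm) (hν : 0 < ν) (hN : 0 < N) (hNΛ : 2 * Λ ≤ N)
include D hν hN hNΛ

/-- The sum of the profiles. -/
theorem rj_Xb (B : Finset K3) (j : Fin J) :
    rj ν n N j * Xb B (ww n s N j) ≤ 32 * Real.pi * Real.sqrt ν * N0 (s j) := by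
  have h1 := Xb_ww D hν hN hNΛ B j
  have h2 := (rj_pos D hν hN j).le
  have h3 : 0 < len (Mj N j • n j) := by
    have h4 := lm_ge' D hN j
    have : (0 : ℝ) < N := by exact_mod_cast hN
    linarith
  refine (mul_le_mul_of_nonneg_left h1 h2).trans (le_of_eq ?_)
  rw [rj]
  field_simp
  ring

theorem Xb_hi (B : Finset K3) {t : ℝ} (ht : 0 ≤ t) :
    Xb B (hi ν n s N t) ≤ 32 * Real.pi * Real.sqrt ν * ∑ j, N0 (s j) := by
  rw [hi, Finset.mul_sum]
  refine (Xb_sum B _ _).trans (Finset.sum_le_sum fun j _ => ?_)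
  rw [Xb_smul, abs_of_nonneg (am_nonneg D hν hN t j)]
  refine le_trans (mul_le_mul_of_nonneg_right ?_ (Xb_nonneg B _)) (rj_Xb D hν hN hNΛ B j)
  rw [am]
  refine mul_le_of_le_one_right (rj_pos D hν hN j).le (Real.exp_le_one_iff.2 ?_)
  nlinarith [mul_nonneg (sq_nonneg (rj ν n N j)) ht]

omit hNΛ in
theorem Xb_lo (B : Finset K3) (hX : Xb B z' ≤ X') {t : ℝ} (ht : 0 ≤ t) :
    Xb B (lo ν n s z' N t) ≤ 24 * Real.pi * (∑ j, N0 (s j)) ^ 2 + X' := by
  have hpi := Real.pi_pos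
  have he1 := e0_le (N := N) hν hN ht
  rw [lo]
  refine (Xb_add B _ _).trans (add_le_add ((Xb_sum B _ _).trans ?_) ?_)
  · have h1 : ∑ j, N0 (s j) ^ 2 ≤ (∑ j, N0 (s j)) ^ 2 := by
      rw [pow_two, Finset.sum_mul]
      refine Finset.sum_le_sum fun j _ => ?_
      rw [pow_two]
      exact mul_le_mul_of_nonneg_left (Finset.single_le_sum (f := fun j => N0 (s j))
        (fun j _ => N0_nonneg _) (Finset.mem_univ j)) (N0_nonneg _)
    refine le_trans ?_ (mul_le_mul_of_nonneg_left h1 (by positivity))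
    rw [Finset.mul_sum]
    refine Finset.sum_le_sum fun j _ => ?_
    rw [Xb_smul, abs_of_pos (Real.exp_pos _)]
    have h2 := sum_nl_le0 (ls1 D j) (ls1 D j) B
    have h3 : Real.exp (-(2 * rj ν n N j ^ 2 * t)) ≤ 1 := (e2_le D hν hN ht j).trans he1
    refine (mul_le_of_le_one_left (Xb_nonneg B _) h3).trans (h2.trans (le_of_eq ?_))
    rw [← pow_two]
  · rw [Xb_smul, abs_of_pos (Real.exp_pos _)]
    exact (mul_le_of_le_one_left (Xb_nonneg B _) he1).trans hX

theorem Yb_v (B : Finset K3) {t : ℝ} (ht : 0 ≤ t) :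
    Yb B (lo ν n s z' N t + hi ν n s N t) ≤ Real.exp (-(ls ν N * t))
      * (Q1 s z' + 32 * Real.pi * Real.sqrt ν * nm ^ 2 * (∑ j, N0 (s j)) * (N : ℝ) ^ (2 * J)) := by
  have hpi := Real.pi_pos
  have hsν := Real.sqrt_nonneg ν
  rw [mul_add]
  refine (Yb_add B _ _).trans (add_le_add ?_ ?_)
  · rw [lo, Q1, mul_add]
    refine (Yb_add B _ _).trans (add_le_add ((Yb_sum B _ _).trans ?_) ?_)
    · rw [Finset.mul_sum]
      refine Finset.sum_le_sum fun j _ => ?_
      rw [Yb_smul, abs_of_pos (Real.exp_pos _)]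
      refine mul_le_mul (e2_le D hν hN ht j) ?_ ?_ (Real.exp_pos _).le
      · exact (summable_len_of_supp (supp_qq D j)).sum_le_tsum B fun k _ =>
          mul_nonneg (len_nonneg k) (norm_nonneg _)
      · exact Finset.sum_nonneg fun k _ => mul_nonneg (len_nonneg k) (norm_nonneg _)
    · rw [Yb_smul, abs_of_pos (Real.exp_pos _)]
      refine mul_le_mul_of_nonneg_left ?_ (Real.exp_pos _).le
      exact (summable_len_of_supp D.zP).sum_le_tsum B fun k _ =>
        mul_nonneg (len_nonneg k) (norm_nonneg _)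
  · rw [hi]
    refine (Yb_sum B _ _).trans ?_
    have e : Real.exp (-(ls ν N * t))
        * (32 * Real.pi * Real.sqrt ν * nm ^ 2 * (∑ j, N0 (s j)) * (N : ℝ) ^ (2 * J))
        = ∑ j, Real.exp (-(ls ν N * t))
          * (32 * Real.pi * Real.sqrt ν * nm ^ 2 * N0 (s j) * (N : ℝ) ^ (2 * J)) := by
      rw [← Finset.mul_sum]
      congr 1
      rw [Finset.mul_sum, Finset.sum_mul]
    rw [e]
    refine Finset.sum_le_sum fun j _ => ?_
    rw [Yb_smul, abs_of_nonneg (am_nonneg D hν hN t j)]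
    have h1 := Yb_ww D hν hN hNΛ B j
    have h2 : len (Mj N j • n j) ≤ (N : ℝ) ^ J * nm := by
      rw [len_nsmul]
      have h3 : (Mj N j : ℝ) ≤ (N : ℝ) ^ J := by exact_mod_cast Mj_le hN j
      exact mul_le_mul h3 (D.nm1 j) (len_nonneg _) (by positivity)
    have h4 := len_nonneg (Mj N j • n j)
    have h5 : len (Mj N j • n j) ^ 2 ≤ nm ^ 2 * (N : ℝ) ^ (2 * J) := by
      calc len (Mj N j • n j) ^ 2 ≤ ((N : ℝ) ^ J * nm) ^ 2 := pow_le_pow_left₀ h4 h2 2
        _ = _ := by ring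
    have h6 := N0_nonneg (s j)
    have h7 := e1_le D hν hN ht j
    have h8 := (rj_pos D hν hN j).le
    calc am ν n N t j * Yb B (ww n s N j)
        ≤ (rj ν n N j * Real.exp (-(ls ν N * t))) * (16 * len (Mj N j • n j) * N0 (s j)) := by
          refine mul_le_mul ?_ h1 ?_ (by positivity)
          · rw [am]
            exact mul_le_mul_of_nonneg_left h7 h8
          · exact Finset.sum_nonneg fun k _ => mul_nonneg (len_nonneg k) (norm_nonneg _)
      _ = Real.exp (-(ls ν N * t)) * (32 * Real.pi * Real.sqrt ν * N0 (s j)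
            * len (Mj N j • n j) ^ 2) := by
          rw [rj]
          ring
      _ ≤ Real.exp (-(ls ν N * t)) * (32 * Real.pi * Real.sqrt ν * N0 (s j)
            * (nm ^ 2 * (N : ℝ) ^ (2 * J))) := by
          refine mul_le_mul_of_nonneg_left ?_ (Real.exp_pos _).le
          exact mul_le_mul_of_nonneg_left h5 (by positivity)
      _ = _ := by ring

omit hNΛ in
/-- The pointwise bound of the square. -/
theorem sq_le {t : ℝ} (ht : 0 ≤ t) {x : ℝ} (hx0 : 0 ≤ x)
    (hx : x ≤ N0 (lo ν n s z' N t) + N0 (hi ν n s N t)) :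
    x ^ 2 ≤ ge (Sum.elim (fun _ : Unit => 2 * Q0 s z' ^ 2)
      fun j : Fin J => 128 * (∑ i, N0 (s i)) * N0 (s j) * rj ν n N j ^ 2)
      (Sum.elim (fun _ : Unit => ls ν N) fun j : Fin J => 2 * rj ν n N j ^ 2) t := by
  have hQ0 : 0 ≤ Q0 s z' := Q0_nonneg
  have he0 := Real.exp_pos (-(ls ν N * t))
  have he1 := e0_le (N := N) hν hN ht
  have n1 := N0_lo D hν hN ht
  have n2 := N0_hi D hν hN t
  have n3 := N0_nonneg (lo ν n s z' N t)
  have n4 := N0_nonneg (hi ν n s N t)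
  rw [ge, Fintype.sum_sum_type]
  simp only [Sum.elim_inl, Sum.elim_inr, Finset.univ_unique, Finset.sum_singleton]
  have h1 : x ^ 2 ≤ 2 * N0 (lo ν n s z' N t) ^ 2 + 2 * N0 (hi ν n s N t) ^ 2 := by
    have h2 : x ^ 2 ≤ (N0 (lo ν n s z' N t) + N0 (hi ν n s N t)) ^ 2 :=
      pow_le_pow_left₀ hx0 hx 2
    nlinarith [sq_nonneg (N0 (lo ν n s z' N t) - N0 (hi ν n s N t))]
  have h3 : N0 (lo ν n s z' N t) ^ 2 ≤ Q0 s z' ^ 2 * Real.exp (-(ls ν N * t)) := by
    calc N0 (lo ν n s z' N t) ^ 2 ≤ (Q0 s z' * Real.exp (-(ls ν N * t))) ^ 2 :=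
          pow_le_pow_left₀ n3 n1 2
      _ = Q0 s z' ^ 2 * Real.exp (-(ls ν N * t)) * Real.exp (-(ls ν N * t)) := by ring
      _ ≤ Q0 s z' ^ 2 * Real.exp (-(ls ν N * t)) * 1 :=
          mul_le_mul_of_nonneg_left he1 (by positivity)
      _ = _ := mul_one _
  have h4 : N0 (hi ν n s N t) ^ 2 ≤ 64 * ((∑ i, N0 (s i)) * ∑ j, N0 (s j) * am ν n N t j ^ 2) := by
    have h5 : N0 (hi ν n s N t) ≤ 8 * ∑ j, N0 (s j) * am ν n N t j := by
      refine n2.trans (le_of_eq ?_)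
      rw [Finset.mul_sum]
      exact Finset.sum_congr rfl fun j _ => by ring
    have h6 : (∑ j, N0 (s j) * am ν n N t j) ^ 2
        ≤ (∑ i, N0 (s i)) * ∑ j, N0 (s j) * am ν n N t j ^ 2 :=
      Finset.sum_sq_le_sum_mul_sum_of_sq_le_mul _ (fun j _ => N0_nonneg _)
        (fun j _ => mul_nonneg (N0_nonneg _) (sq_nonneg _)) fun j _ => le_of_eq (by ring)
    calc N0 (hi ν n s N t) ^ 2 ≤ (8 * ∑ j, N0 (s j) * am ν n N t j) ^ 2 :=
          pow_le_pow_left₀ n4 h5 2
      _ = 64 * (∑ j, N0 (s j) * am ν n N t j) ^ 2 := by ring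
      _ ≤ _ := mul_le_mul_of_nonneg_left h6 (by norm_num)
  have h7 : ∑ j, 128 * (∑ i, N0 (s i)) * N0 (s j) * rj ν n N j ^ 2
      * Real.exp (-(2 * rj ν n N j ^ 2 * t))
      = 2 * (64 * ((∑ i, N0 (s i)) * ∑ j, N0 (s j) * am ν n N t j ^ 2)) := by
    have e : 2 * (64 * ((∑ i, N0 (s i)) * ∑ j, N0 (s j) * am ν n N t j ^ 2))
        = (128 * ∑ i, N0 (s i)) * ∑ j, N0 (s j) * am ν n N t j ^ 2 := by ring
    rw [e, Finset.mul_sum Finset.univ (fun j => N0 (s j) * am ν n N t j ^ 2)]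
    refine Finset.sum_congr rfl fun j _ => ?_
    rw [am_sq]
    ring
  rw [h7]
  linarith

omit hNΛ in
theorem sq_int : ∑ i, (Sum.elim (fun _ : Unit => 2 * Q0 s z' ^ 2)
      fun j : Fin J => 128 * (∑ i, N0 (s i)) * N0 (s j) * rj ν n N j ^ 2) i
      / (Sum.elim (fun _ : Unit => ls ν N) fun j : Fin J => 2 * rj ν n N j ^ 2) i
    ≤ 2 * Q0 s z' ^ 2 / ν / N + 64 * (∑ i, N0 (s i)) ^ 2 := by
  have hNr : (0 : ℝ) < N := by exact_mod_cast hN
  rw [Fintype.sum_sum_type]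
  simp only [Sum.elim_inl, Sum.elim_inr, Finset.univ_unique, Finset.sum_singleton]
  refine add_le_add ?_ (le_of_eq ?_)
  · rw [div_div]
    exact div_le_div_of_nonneg_left (by positivity) (by positivity) (ls_ge hν hN)
  · have h1 : ∀ j, 128 * (∑ i, N0 (s i)) * N0 (s j) * rj ν n N j ^ 2 / (2 * rj ν n N j ^ 2)
        = 64 * (∑ i, N0 (s i)) * N0 (s j) := by
      intro j
      have := rj_pos D hν hN j
      field_simp
      ring
    simp_rw [h1]
    rw [← Finset.mul_sum]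
    ring

end

/-- **Piece Q3.** -/
theorem app3 (hDec : StmDec) : StmApp3 := by
  classical
  obtain ⟨C, hC, dec⟩ := hDec
  have hpi := Real.pi_pos
  refine ⟨64 * C ^ 2 + 24 * Real.pi * C ^ 2 + 32 * Real.pi * C, by positivity, ?_⟩
  intro ν hν Z z h0 hz hh hd δ hδ R η hη
  obtain ⟨J, n, s, P, hn0, hsP, hsh, hkd, hS, hzP, hzη⟩ := dec Z z h0 hz hh hd (η / 2)
    (by positivity)
  set Γ : ℝ := ∑ k ∈ Z, ‖z k‖ / len k with hΓ
  have hΓ0 : 0 ≤ Γ := Finset.sum_nonneg fun k _ => div_nonneg (norm_nonneg _) (len_nonneg _)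
  set z' : Cf := z - ∑ j, qq s j with hz'
  have hz'k : ∀ k, z' k = z k - ∑ j, nl (s j) (s j) k := fun k => by
    rw [hz', Pi.sub_apply, Finset.sum_apply]
    rfl
  set Λ : ℝ := ∑ p ∈ P, len p with hΛ
  set nm : ℝ := ∑ j, len (n j) with hnm
  have D : Dat n s P z' Λ nm :=
    { n0 := hn0
      sP := hsP
      zP := fun k hk => by rw [hz'k]; exact hzP k hk
      kdn := hkd
      Λ0 := Finset.sum_nonneg fun p _ => len_nonneg p
      Λ1 := fun p hp => Finset.single_le_sum (f := fun p => len p) (fun p _ => len_nonneg p) hp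
      nm1 := fun j => Finset.single_le_sum (f := fun j => len (n j))
        (fun j _ => len_nonneg _) (Finset.mem_univ j) }
  -- the sum of the profiles
  set S : ℝ := ∑ j, N0 (s j) with hSd
  have hS0 : 0 ≤ S := Finset.sum_nonneg fun j _ => N0_nonneg _
  have hSC : S ≤ C * Real.sqrt Γ := by
    refine le_trans (le_of_eq ?_) hS
    refine Finset.sum_congr rfl fun j _ => ?_
    rw [N0_eq]
    exact tsum_eq_sum fun k hk => by rw [hsP j k hk, norm_zero]
  have hS2 : S ^ 2 ≤ C ^ 2 * Γ := by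
    calc S ^ 2 ≤ (C * Real.sqrt Γ) ^ 2 := pow_le_pow_left₀ hS0 hSC 2
      _ = C ^ 2 * Γ := by rw [mul_pow, Real.sq_sqrt hΓ0]
  -- the choice of `N`
  obtain ⟨N, hN, hNΛ, hNK, hNQ, hNR, hNν, hNe⟩ : ∃ N : ℕ, 0 < N ∧ 2 * Λ ≤ N ∧
      KK ν s z' Λ nm / N ≤ η / 2 ∧ 2 * Q0 s z' ^ 2 / ν / N ≤ 1 ∧ 2 * R < N ∧ 2 / ν ≤ N ∧
      Real.exp (-(ν * δ / 2 * N)) * (Q1 s z' + 32 * Real.pi * Real.sqrt ν * nm ^ 2 * S
        * (N : ℝ) ^ (2 * J)) ≤ δ := by
    have a1 : ∀ᶠ N : ℕ in atTop, 0 < N := eventually_gt_atTop 0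
    have a2 : ∀ x : ℝ, ∀ᶠ N : ℕ in atTop, x ≤ N := fun x =>
      tendsto_natCast_atTop_atTop.eventually_ge_atTop x
    have a3 : ∀ᶠ N : ℕ in atTop, 2 * R < N := tendsto_natCast_atTop_atTop.eventually_gt_atTop _
    have a4 : ∀ x κ : ℝ, 0 < κ → ∀ᶠ N : ℕ in atTop, x / N ≤ κ := fun x κ hκ =>
      (tendsto_const_div_atTop_nhds_zero_nat x).eventually_le_const hκ
    obtain ⟨N, h1, h2, h3, h4, h5, h6, h7⟩ := (a1.and ((a2 (2 * Λ)).and
      ((a4 (KK ν s z' Λ nm) (η / 2) (by positivity)).and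
      ((a4 (2 * Q0 s z' ^ 2 / ν) 1 one_pos).and (a3.and ((a2 (2 / ν)).and
      (ev_exp (Q1 s z') (32 * Real.pi * Real.sqrt ν * nm ^ 2 * S) (ν * δ / 2) δ
        (by positivity) hδ (2 * J)))))))).exists
    exact ⟨N, h1, h2, h3, h4, h5, h6, h7⟩
  have hNr : (0 : ℝ) < N := by exact_mod_cast hN
  -- frequencies of the waves
  have hwf : ∀ j k, ww n s N j k ≠ 0 → (N : ℝ) / 2 ≤ len k := by
    intro j k hk
    have hM : 2 * Λ ≤ (Mj N j : ℝ) := hNΛ.trans (by exact_mod_cast Mj_ge hN j)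
    have h1 := wv_ge (hn0 j) (hsP j) D.Λ1 hM hk
    have h2 := lm_ge' D hN j
    linarith
  choose Qw hQw using fun j => wv_supp (hsP j) (Mj N j) (n j)
  set Q : Finset K3 := (P ∪ Finset.image₂ (fun x y => x + y) P P) ∪ Finset.univ.biUnion Qw
    with hQ
  have hbb : ∀ i, ∀ k ∉ Q, bb n s z' N i k = 0 := by
    intro i k hk
    rw [hQ, Finset.mem_union, not_or, Finset.mem_union, not_or, Finset.mem_biUnion] at hk
    rcases i with j | j | _
    · exact supp_qq D j k hk.1.2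
    · exact hQw j k fun h => hk.2 ⟨j, Finset.mem_univ j, h⟩
    · exact D.zP k hk.1.1
  have hq0 : ∀ j, qq s j 0 = 0 := fun j => nl_zero_mode _ _
  have hz0 : z' 0 = 0 := by
    rw [hz'k, hz 0 h0, zero_sub, neg_eq_zero]
    exact Finset.sum_eq_zero fun j _ => nl_zero_mode _ _
  have hb0 : ∀ i, bb n s z' N i 0 = 0 := by
    intro i
    rcases i with j | j | _
    · exact hq0 j
    · by_contra h
      have h1 := hwf j 0 h
      rw [len_zero] at h1
      linarith
    · exact hz0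
  have hbh : ∀ i, Herm (bb n s z' N i) := by
    intro i
    rcases i with j | j | _
    · exact herm_nl (hsh j) (hsh j)
    · exact herm_wv (hsh j) _ _
    · exact hh.sub (Herm.sum fun j _ => herm_nl (hsh j) (hsh j))
  have hbd : ∀ i, Dv (bb n s z' N i) := by
    intro i
    rcases i with j | j | _
    · exact dv_nl _ _
    · exact dv_wv _ _ _
    · exact hd.sub (Dv.sum fun j _ => dv_nl _ _)
  have A := appr_ef ν hbh hbd hb0 hbb (cc ν n N) (mu ν n N)
  set B : Finset K3 := (Q ∪ Finset.image₂ (fun x y => x + y) Q Q).erase 0 with hB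
  have hXz : Xb B z' ≤ η / 2 := by
    have h1 : Xb B z' ≤ Xb (B ∪ P) z' :=
      Finset.sum_le_sum_of_subset_of_nonneg Finset.subset_union_left fun k _ _ =>
        div_nonneg (norm_nonneg _) (len_nonneg k)
    have h2 : Xb (B ∪ P) z' = Xb P z' := by
      refine (Finset.sum_subset Finset.subset_union_right fun k _ hk => ?_).symm
      rw [D.zP k hk, norm_zero, zero_div]
    rw [h2] at h1
    refine h1.trans (le_trans (le_of_eq ?_) hzη)
    exact Finset.sum_congr rfl fun k _ => by rw [hz'k]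
  have hv : ∀ t, ef (cc ν n N) (mu ν n N) (bb n s z' N) t
      = lo ν n s z' N t + hi ν n s N t := fun t => ef_eq t
  have hlo0 : lo ν n s z' N 0 = z := by
    rw [lo]
    simp only [mul_zero, neg_zero, Real.exp_zero, Complex.ofReal_one, one_smul]
    rw [hz']
    abel
  have hl1 : ∀ t, L1 (lo ν n s z' N t) := fun t =>
    L1.lo' (ν := ν) (n := n) (N := N) (lq D) (lz D) t
  have hh1 : ∀ t, L1 (hi ν n s N t) := fun t => L1.hi' (ν := ν) (N := N) (lw D) t
  have hsum : ∀ t, ∑ k ∈ B, ‖ef (cc ν n N) (mu ν n N) (bb n s z' N) t k‖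
      ≤ N0 (lo ν n s z' N t) + N0 (hi ν n s N t) := by
    intro t
    rw [hv]
    exact (sum_le_N0' ((hl1 t).add (hh1 t)) B).trans (N0_add_le (hl1 t) (hh1 t))
  have hw0 : ∀ k, (∀ j, ww n s N j k = 0) → hi ν n s N 0 k = 0 := by
    intro k hk
    rw [hi, Finset.sum_apply]
    exact Finset.sum_eq_zero fun j _ => by rw [Pi.smul_apply, hk j, smul_zero]
  have hν12 : Real.sqrt ν * (C * Real.sqrt Γ) = C * Real.sqrt (ν * Γ) := by
    rw [Real.sqrt_mul hν.le]
    ring
  have hXw : ∀ t, 0 ≤ t → Xb B (hi ν n s N t) ≤ 32 * Real.pi * C * Real.sqrt (ν * Γ) := by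
    intro t ht
    refine (Xb_hi D hν hN hNΛ B ht).trans ?_
    calc 32 * Real.pi * Real.sqrt ν * ∑ j, N0 (s j)
        ≤ 32 * Real.pi * Real.sqrt ν * (C * Real.sqrt Γ) :=
          mul_le_mul_of_nonneg_left hSC (by positivity)
      _ = 32 * Real.pi * (Real.sqrt ν * (C * Real.sqrt Γ)) := by ring
      _ = 32 * Real.pi * (C * Real.sqrt (ν * Γ)) := by rw [hν12]
      _ = _ := by ring
  have hsq0 := Real.sqrt_nonneg (ν * Γ)
  refine ⟨B, ef (cc ν n N) (mu ν n N) (bb n s z' N), rs ν (cc ν n N) (mu ν n N) (bb n s z' N),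
    ge (ga ν n s z' Λ (η / 2) N) (gm ν n N), hi ν n s N 0, A, ge_cont _ _, ?_, ?_, ?_, ?_, ?_,
    ?_, ?_, ?_, ?_⟩
  · intro t ht
    exact rs_le D hν hN hNΛ B hXz ht
  · intro T hT
    refine (ge_int (ga_nonneg D hν hN (by positivity)) (gm_pos D hν hN) hT).trans ?_
    refine (ga_sum D hν hN (by positivity)).trans ?_
    linarith
  · intro T hT
    have hc : Continuous fun t => (∑ k ∈ B, ‖ef (cc ν n N) (mu ν n N) (bb n s z' N) t k‖) ^ 2 :=
      (continuous_finsetSum _ fun k _ => (ef_cont _ _ _ k).norm).pow 2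
    refine (intervalIntegral.integral_mono_on hT (hc.intervalIntegrable _ _)
      ((ge_cont _ _).intervalIntegrable _ _) fun t ht =>
      sq_le D hν hN ht.1 (Finset.sum_nonneg fun k _ => norm_nonneg _) (hsum t)).trans ?_
    refine (ge_int ?_ ?_ hT).trans ((sq_int D hν hN).trans ?_)
    · rintro (_ | j)
      · simp only [Sum.elim_inl]
        positivity
      · simp only [Sum.elim_inr]
        have := N0_nonneg (s j)
        positivity
    · rintro (_ | j)
      · simp only [Sum.elim_inl]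
        exact lt_of_lt_of_le (by positivity) (ls_ge hν hN)
      · simp only [Sum.elim_inr]
        have := rj_pos D hν hN j
        positivity
    · have h1 : 0 ≤ (24 * Real.pi * C ^ 2 + 32 * Real.pi * C) * Γ := by positivity
      have h2 : 64 * S ^ 2 ≤ 64 * (C ^ 2 * Γ) := by linarith
      calc 2 * Q0 s z' ^ 2 / ν / N + 64 * S ^ 2 ≤ 1 + 64 * (C ^ 2 * Γ) := add_le_add hNQ h2
        _ ≤ _ := by linarith
  · intro k
    rw [hv, hlo0, Pi.add_apply]
  · intro k hk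
    refine hw0 k fun j => ?_
    by_contra h
    have h1 := hwf j k h
    have hk0 : k ≠ 0 := fun e => by
      rw [e, len_zero] at h1
      linarith
    have hkQ : k ∉ Q := fun h' => hk (by
      rw [hB, Finset.mem_erase]
      exact ⟨hk0, Finset.mem_union_left _ h'⟩)
    exact h (hbb (Sum.inr (Sum.inl j)) k hkQ)
  · intro k hk
    refine hw0 k fun j => ?_
    by_contra h
    have h1 := hwf j k h
    linarith
  · refine (hXw 0 le_rfl).trans ?_
    refine mul_le_mul_of_nonneg_right ?_ hsq0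
    have : 0 ≤ 64 * C ^ 2 + 24 * Real.pi * C ^ 2 := by positivity
    linarith
  · intro t ht
    have h1 : Xb B (ef (cc ν n N) (mu ν n N) (bb n s z' N) t)
        ≤ (24 * Real.pi * S ^ 2 + η / 2) + 32 * Real.pi * C * Real.sqrt (ν * Γ) := by
      rw [hv]
      exact (Xb_add B _ _).trans (add_le_add (Xb_lo D hν hN B hXz ht) (hXw t ht))
    refine h1.trans ?_
    have h2 : 24 * Real.pi * S ^ 2 ≤ 24 * Real.pi * (C ^ 2 * Γ) :=
      mul_le_mul_of_nonneg_left hS2 (by positivity)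
    have h3 : 0 ≤ (64 * C ^ 2 + 32 * Real.pi * C) * Γ := by positivity
    have h4 : 0 ≤ (64 * C ^ 2 + 24 * Real.pi * C ^ 2) * Real.sqrt (ν * Γ) := by positivity
    linarith
  · intro t ht
    have ht0 : 0 ≤ t := hδ.le.trans ht
    have h1 := Yb_v D hν hN hNΛ B ht0
    rw [← hv] at h1
    refine h1.trans ?_
    have hQ1 : 0 ≤ Q1 s z' := Q1_nonneg
    have hνN : 2 ≤ ν * N := by
      rw [div_le_iff₀ hν] at hNν
      linarith
    have h2 : Real.exp (-(ls ν N * t)) ≤ Real.exp (-t) * Real.exp (-(ν * δ / 2 * N)) := by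
      rw [← Real.exp_add]
      refine Real.exp_le_exp.2 ?_
      have h3 := ls_ge hν hN
      have h4 : ν * N * t ≤ ls ν N * t := mul_le_mul_of_nonneg_right h3 ht0
      have h5 : t ≤ ν * N * t / 2 := by nlinarith
      have h6 : ν * δ / 2 * N ≤ ν * N * t / 2 := by
        have : ν * N * δ ≤ ν * N * t := mul_le_mul_of_nonneg_left ht (by positivity)
        linarith
      linarith
    calc _ ≤ (Real.exp (-t) * Real.exp (-(ν * δ / 2 * N)))
          * (Q1 s z' + 32 * Real.pi * Real.sqrt ν * nm ^ 2 * S * (N : ℝ) ^ (2 * J)) := by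
          refine mul_le_mul_of_nonneg_right h2 ?_
          positivity
      _ = (Real.exp (-(ν * δ / 2 * N)) * (Q1 s z' + 32 * Real.pi * Real.sqrt ν * nm ^ 2 * S
          * (N : ℝ) ^ (2 * J))) * Real.exp (-t) := by ring
      _ ≤ δ * Real.exp (-t) := mul_le_mul_of_nonneg_right hNe (Real.exp_pos _).le

end Pool.Agent.Run7.h969.GG
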