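import Pool.Agent.Run7.h969.GG.Defs
import Pool.Agent.Run7.h782.GS.Trunc

/-!
One unit: shear waves with a fixed profile at high frequency.
-/

set_option autoImplicit false

open MeasureTheory Set Filter Topology
open scoped ContDiff ComplexConjugate NNReal

namespace Pool.Agent.Run7.h969.GG

open H459R3.NS Pool.Agent.Run7.h782 Pool.Agent.Run7.h782.GD Pool.Agent.Run7.h782.GS

/-- Translation of the frequencies. -/
noncomputable def sh (m : K3) (s : Cf) : Cf := fun k => s (k - m)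

/-- The projected waves. -/
noncomputable def sp (m : K3) (s : Cf) : Cf := fun k => prj k (s (k - m))

theorem wv_eq (N : ℕ) (n : K3) (s : Cf) : wv N n s = sp (N • n) s + sp (-(N • n)) s := by
  funext k
  rw [Pi.add_apply, wv, sp, sp, sub_neg_eq_add]

theorem L1.sh {s : Cf} (hs : L1 s) (m : K3) : L1 (sh m s) :=
  (Equiv.subRight m).summable_iff.2 hs

theorem N0_sh (m : K3) (s : Cf) : N0 (sh m s) = N0 s := by
  rw [N0_eq, N0_eq]
  exact (Equiv.subRight m).tsum_eq fun k => ‖s k‖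

theorem norm_sp_le (m : K3) (s : Cf) (k : K3) : ‖sp m s k‖ ≤ 4 * ‖sh m s k‖ := norm_prj_le _ _

theorem L1.sp {s : Cf} (hs : L1 s) (m : K3) : L1 (sp m s) :=
  Summable.of_nonneg_of_le (fun _ => norm_nonneg _) (norm_sp_le m s) ((L1.sh hs m).mul_left 4)

theorem N0_sp_le {s : Cf} (hs : L1 s) (m : K3) : N0 (sp m s) ≤ 4 * N0 s := by
  rw [← N0_sh m s, N0_eq, N0_eq, ← tsum_mul_left]
  exact Summable.tsum_le_tsum (norm_sp_le m s) (L1.sp hs m) ((L1.sh hs m).mul_left 4)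

/-- Opposite translations do not change the interaction. -/
theorem nl_sh_neg (m : K3) (a b : Cf) : nl (sh m a) (sh (-m) b) = nl a b := by
  funext k
  rw [nl, nl]
  congr 2
  rw [← (Equiv.subRight m).tsum_eq fun p => kd k (a p) • b (k - p)]
  refine tsum_congr fun p => ?_
  rw [sh, sh, Equiv.subRight_apply]
  congr 2
  abel

theorem kd_nsmul (N : ℕ) (n : K3) (v : C3) : kd (N • n) v = N * kd n v := by
  induction N with
  | zero => simp [kd_zero_left]
  | succ N ih =>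
    rw [succ_nsmul, kd_add_left, ih]
    push_cast
    ring

theorem len_nsmul (N : ℕ) (n : K3) : len (N • n) = N * len n := by
  have e : GD.sq (N • n) = (N : ℝ) ^ 2 * GD.sq n := by
    unfold GD.sq
    rw [Finset.mul_sum]
    refine Finset.sum_congr rfl fun i _ => ?_
    rw [Pi.smul_apply, nsmul_eq_mul]
    push_cast
    ring
  rw [len, len, e, Real.sqrt_mul (by positivity), Real.sqrt_sq (by positivity)]

section
variable {s : Cf} {P : Finset K3} {m : K3} {Λ ℓ : ℝ}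

/-- Frequencies of the waves. -/
theorem len_ge {p : K3} (hp : len p ≤ Λ) (hm : ℓ ≤ len m) (hℓ : 2 * Λ ≤ ℓ) :
    ℓ / 2 ≤ len (m + p) := by
  have h1 := len_add_le (m + p) (-p)
  rw [add_neg_cancel_right, len_neg] at h1
  linarith

theorem len_ge2 {p q : K3} (hp : len p ≤ Λ) (hq : len q ≤ Λ) (hm : ℓ ≤ len m)
    (hℓ : 2 * Λ ≤ ℓ) : ℓ ≤ len (m + m + (p + q)) := by
  have h1 := len_add_le (m + m + (p + q)) (-(p + q))
  rw [add_neg_cancel_right, len_neg] at h1
  have h2 := len_add_le p q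
  have h3 : len (m + m) = 2 * len m := by
    have := len_nsmul 2 m
    rw [two_nsmul] at this
    rw [this]
    norm_num
  linarith

theorem supp_bd (hP : ∀ p ∉ P, s p = 0) (hΛ : ∀ p ∈ P, len p ≤ Λ) {p : K3} (h : s p ≠ 0) :
    len p ≤ Λ := hΛ p (by
      by_contra hp
      exact h (hP p hp))

/-- The high part of the interaction. -/
theorem term_high (hP : ∀ p ∉ P, s p = 0) (hΛ : ∀ p ∈ P, len p ≤ Λ) (hn : ∀ p, kd m (s p) = 0)
    (hm : ℓ ≤ len m) (hℓ : 2 * Λ ≤ ℓ) (hℓ0 : 0 < ℓ) (k p : K3) :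
    ‖kd k (sh m s p) • sh m s (k - p)‖
      ≤ 6 * Λ / ℓ * len k * (‖sh m s p‖ * ‖sh m s (k - p)‖) := by
  by_cases h1 : sh m s p = 0
  · rw [h1, kd_zero_right, zero_smul]
    simp
  by_cases h2 : sh m s (k - p) = 0
  · rw [h2, smul_zero]
    simp
  have hp := supp_bd hP hΛ h1
  have hq := supp_bd hP hΛ h2
  have hk : k = m + m + ((p - m) + (k - p - m)) := by abel
  have hlk : ℓ ≤ len k := by
    have := len_ge2 hp hq hm hℓ
    rwa [← hk] at this
  have hl2 : len ((p - m) + (k - p - m)) ≤ 2 * Λ := (len_add_le _ _).trans (by linarith)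
  have hkd : kd k (sh m s p) = kd ((p - m) + (k - p - m)) (sh m s p) := by
    have e : kd k (sh m s p) = kd (m + m + ((p - m) + (k - p - m))) (sh m s p) := by rw [← hk]
    rw [e, kd_add_left, kd_add_left]
    have : kd m (sh m s p) = 0 := hn _
    rw [this]
    ring
  rw [norm_smul, hkd]
  have h3 := norm_kd_le ((p - m) + (k - p - m)) (sh m s p)
  have hΛ0 : 0 ≤ Λ := (len_nonneg _).trans hp
  have h4 : 3 * len ((p - m) + (k - p - m)) ≤ 6 * Λ / ℓ * len k := by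
    rw [div_mul_eq_mul_div, le_div_iff₀ hℓ0]
    have h5 := len_nonneg ((p - m) + (k - p - m))
    nlinarith
  have h6 := norm_nonneg (sh m s p)
  have h7 := norm_nonneg (sh m s (k - p))
  calc ‖kd (p - m + (k - p - m)) (sh m s p)‖ * ‖sh m s (k - p)‖
      ≤ (3 * len ((p - m) + (k - p - m)) * ‖sh m s p‖) * ‖sh m s (k - p)‖ :=
        mul_le_mul_of_nonneg_right h3 h7
    _ = 3 * len ((p - m) + (k - p - m)) * (‖sh m s p‖ * ‖sh m s (k - p)‖) := by ring
    _ ≤ _ := mul_le_mul_of_nonneg_right h4 (mul_nonneg h6 h7)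

theorem nl_high (hP : ∀ p ∉ P, s p = 0) (hΛ : ∀ p ∈ P, len p ≤ Λ) (hn : ∀ p, kd m (s p) = 0)
    (hm : ℓ ≤ len m) (hℓ : 2 * Λ ≤ ℓ) (hℓ0 : 0 < ℓ) (hΛ0 : 0 ≤ Λ) (B : Finset K3) :
    ∑ k ∈ B, ‖nl (sh m s) (sh m s) k‖ / len k ≤ 48 * Real.pi * Λ / ℓ * (N0 s * N0 s) := by
  have hpi := Real.pi_pos
  have hs : L1 s := L1.of_supp hP
  have hsh := L1.sh hs m
  have hn0 : ∀ k, 0 ≤ ‖sh m s k‖ := fun k => norm_nonneg _
  have key : ∀ k, ‖nl (sh m s) (sh m s) k‖ / len k
      ≤ 48 * Real.pi * Λ / ℓ * ∑' p, ‖sh m s p‖ * ‖sh m s (k - p)‖ := by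
    intro k
    have c0 := summable_conv hn0 hn0 hsh hsh k
    have hc0 : 0 ≤ ∑' p, ‖sh m s p‖ * ‖sh m s (k - p)‖ :=
      tsum_nonneg fun p => mul_nonneg (hn0 _) (hn0 _)
    by_cases hk : k = 0
    · subst hk
      rw [len_zero, div_zero]
      positivity
    rw [div_le_iff₀ (len_pos hk), nl, norm_smul]
    have e1 : ‖(2 * Real.pi * Complex.I : ℂ)‖ = 2 * Real.pi := by
      rw [norm_mul, norm_mul, Complex.norm_I, Complex.norm_real, Real.norm_of_nonneg hpi.le]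
      norm_num
    rw [e1]
    have h1 : ‖∑' p, kd k (sh m s p) • sh m s (k - p)‖
        ≤ 6 * Λ / ℓ * len k * ∑' p, ‖sh m s p‖ * ‖sh m s (k - p)‖ := by
      rw [← tsum_mul_left]
      exact tsum_of_norm_bounded (c0.mul_left _).hasSum fun p =>
        term_high hP hΛ hn hm hℓ hℓ0 k p
    have h2 := norm_prj_le k (∑' p, kd k (sh m s p) • sh m s (k - p))
    calc 2 * Real.pi * ‖prj k (∑' p, kd k (sh m s p) • sh m s (k - p))‖
        ≤ 2 * Real.pi * (4 * (6 * Λ / ℓ * len k * ∑' p, ‖sh m s p‖ * ‖sh m s (k - p)‖)) := by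
          refine mul_le_mul_of_nonneg_left (h2.trans ?_) (by positivity)
          linarith
      _ = _ := by ring
  calc ∑ k ∈ B, ‖nl (sh m s) (sh m s) k‖ / len k
      ≤ ∑ k ∈ B, 48 * Real.pi * Λ / ℓ * ∑' p, ‖sh m s p‖ * ‖sh m s (k - p)‖ :=
        Finset.sum_le_sum fun k _ => key k
    _ = 48 * Real.pi * Λ / ℓ * ∑ k ∈ B, ∑' p, ‖sh m s p‖ * ‖sh m s (k - p)‖ := by
        rw [Finset.mul_sum]
    _ ≤ 48 * Real.pi * Λ / ℓ * (N0 s * N0 s) := by
        refine mul_le_mul_of_nonneg_left ?_ (by positivity)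
        have h3 := sum_conv_le hn0 hn0 hsh hsh B
        rw [← N0_eq, N0_sh] at h3
        exact h3

/-- The projection changes the waves little. -/
theorem sp_sub_sh (hP : ∀ p ∉ P, s p = 0) (hΛ : ∀ p ∈ P, len p ≤ Λ) (hn : ∀ p, kd m (s p) = 0)
    (hm : ℓ ≤ len m) (hℓ : 2 * Λ ≤ ℓ) (hℓ0 : 0 < ℓ) (k : K3) :
    ‖(sp m s - sh m s) k‖ ≤ 6 * Λ / ℓ * ‖sh m s k‖ := by
  rw [Pi.sub_apply]
  by_cases h1 : sh m s k = 0
  · have h2 : sp m s k = 0 := by
      have : sp m s k = prj k (sh m s k) := rfl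
      rw [this, h1, prj_zero]
    rw [h1, h2]
    simp
  have hp := supp_bd hP hΛ h1
  have hk : k = m + (k - m) := by abel
  have hlk : ℓ / 2 ≤ len k := by
    have := len_ge hp hm hℓ
    rwa [← hk] at this
  have hlk0 : 0 < len k := by linarith
  have hkd : kd k (sh m s k) = kd (k - m) (sh m s k) := by
    have e : kd k (sh m s k) = kd (m + (k - m)) (sh m s k) := by rw [← hk]
    rw [e, kd_add_left]
    have : kd m (sh m s k) = 0 := hn _
    rw [this, zero_add]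
  have hΛ0 : 0 ≤ Λ := (len_nonneg _).trans hp
  have hv := norm_nonneg (sh m s k)
  refine (pi_norm_le_iff_of_nonneg (by positivity)).2 fun i => ?_
  have e : (sp m s k - sh m s k) i
      = -((k i : ℂ) * (kd (k - m) (sh m s k) / (GD.sq k : ℂ))) := by
    rw [Pi.sub_apply]
    have : sp m s k i = sh m s k i - (k i : ℂ) * (kd k (sh m s k) / (GD.sq k : ℂ)) := rfl
    rw [this, hkd]
    ring
  rw [e, norm_neg, norm_mul, norm_div, ← len_sq, Complex.norm_real, Real.norm_of_nonneg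
    (by positivity)]
  have h3 := norm_kd_le (k - m) (sh m s k)
  have h4 : ‖((k i : ℤ) : ℂ)‖ ≤ len k := by
    rw [Complex.norm_intCast]
    exact abs_le_len k i
  have h5 : len (k - m) ≤ Λ := hp
  calc ‖((k i : ℤ) : ℂ)‖ * (‖kd (k - m) (sh m s k)‖ / len k ^ 2)
      ≤ len k * (3 * Λ * ‖sh m s k‖ / len k ^ 2) := by
        refine mul_le_mul h4 (div_le_div_of_nonneg_right (h3.trans ?_) (by positivity))
          (by positivity) hlk0.le
        exact mul_le_mul_of_nonneg_right (by linarith) hv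
    _ = 3 * Λ * ‖sh m s k‖ / len k := by
        field_simp
    _ ≤ 6 * Λ / ℓ * ‖sh m s k‖ := by
        rw [div_le_iff₀ hlk0, div_mul_eq_mul_div, div_mul_eq_mul_div, le_div_iff₀ hℓ0]
        nlinarith [mul_nonneg hΛ0 hv]

theorem N0_sub_le (hP : ∀ p ∉ P, s p = 0) (hΛ : ∀ p ∈ P, len p ≤ Λ) (hn : ∀ p, kd m (s p) = 0)
    (hm : ℓ ≤ len m) (hℓ : 2 * Λ ≤ ℓ) (hℓ0 : 0 < ℓ) :
    N0 (sp m s - sh m s) ≤ 6 * Λ / ℓ * N0 s := by
  have hs : L1 s := L1.of_supp hP
  rw [← N0_sh m s, N0_eq, N0_eq, ← tsum_mul_left]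
  exact Summable.tsum_le_tsum (sp_sub_sh hP hΛ hn hm hℓ hℓ0) ((L1.sp hs m).sub (L1.sh hs m))
    ((L1.sh hs m).mul_left _)

end

theorem N0_add_le {a b : Cf} (ha : L1 a) (hb : L1 b) : N0 (a + b) ≤ N0 a + N0 b := by
  rw [N0_eq, N0_eq, N0_eq, ← Summable.tsum_add ha hb]
  exact Summable.tsum_le_tsum (fun k => norm_add_le _ _) (ha.add hb) (Summable.add ha hb)

/-- **Piece Q2.** The quantitative form. -/
theorem unit_le {n : K3} {s : Cf} {P : Finset K3} {Λ : ℝ} {N : ℕ} (hn0 : n ≠ 0)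
    (hP : ∀ p ∉ P, s p = 0) (hn : ∀ p, kd n (s p) = 0) (hΛ0 : 0 ≤ Λ)
    (hΛ : ∀ p ∈ P, len p ≤ Λ) (hN : 2 * Λ ≤ N) (hN0 : 0 < N) (B : Finset K3) :
    ∑ k ∈ B, ‖nl (wv N n s) (wv N n s) k - (2 : ℂ) • nl s s k‖ / len k
      ≤ 2976 * Real.pi * Λ / N * (N0 s * N0 s) := by
  have hpi := Real.pi_pos
  have hs : L1 s := L1.of_supp hP
  have hNr : (0 : ℝ) < N := by exact_mod_cast hN0
  set m : K3 := N • n with hm
  have hlm : (N : ℝ) ≤ len m := by
    rw [hm, len_nsmul]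
    have := one_le_len hn0
    nlinarith
  have hlm' : (N : ℝ) ≤ len (-m) := by rwa [len_neg]
  have hkm : ∀ p, kd m (s p) = 0 := fun p => by rw [hm, kd_nsmul, hn, mul_zero]
  have hkm' : ∀ p, kd (-m) (s p) = 0 := fun p => by rw [kd_neg_left, hkm, neg_zero]
  -- the unprojected waves
  set a : Cf := sh m s + sh (-m) s with ha
  set D : Cf := (sp m s - sh m s) + (sp (-m) s - sh (-m) s) with hD
  have l1 := L1.sh hs m
  have l2 := L1.sh hs (-m)
  have l3 := L1.sp hs m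
  have l4 := L1.sp hs (-m)
  have la : L1 a := l1.add l2
  have lD : L1 D := (l3.sub l1).add (l4.sub l2)
  have ew : wv N n s = a + D := by
    rw [wv_eq, ha, hD]
    abel
  have lw : L1 (wv N n s) := by rw [ew]; exact la.add lD
  have e1 : nl (wv N n s) (wv N n s) - (2 : ℂ) • nl s s
      = nl (sh m s) (sh m s) + nl (sh (-m) s) (sh (-m) s) + nl D (wv N n s) + nl a D := by
    have h1 : nl (wv N n s) (wv N n s) = nl a a + nl a D + nl D (wv N n s) := by
      rw [← nl_add_right la la lD, ← ew, ← nl_add_left la lD lw, ← ew]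
    have h2 : nl a a = nl (sh m s) (sh m s) + nl (sh (-m) s) (sh (-m) s) + (2 : ℂ) • nl s s := by
      rw [ha, nl_add_left l1 l2 (l1.add l2), nl_add_right l1 l1 l2, nl_add_right l2 l1 l2,
        nl_sh_neg]
      have h3 : nl (sh (-m) s) (sh m s) = nl s s := by
        have := nl_sh_neg (-m) s s
        rwa [neg_neg] at this
      rw [h3, two_smul]
      abel
    rw [h1, h2]
    abel
  have hN0a : N0 a ≤ 2 * N0 s := by
    refine (N0_add_le l1 l2).trans ?_
    rw [N0_sh, N0_sh]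
    linarith
  have hN0w : N0 (wv N n s) ≤ 8 * N0 s := by
    rw [wv_eq]
    refine (N0_add_le l3 l4).trans ?_
    have h1 := N0_sp_le hs m
    have h2 := N0_sp_le hs (-m)
    linarith
  have hN0D : N0 D ≤ 12 * Λ / N * N0 s := by
    refine (N0_add_le (l3.sub l1) (l4.sub l2)).trans ?_
    have h1 := N0_sub_le hP hΛ hkm hlm hN hNr
    have h2 := N0_sub_le hP hΛ hkm' hlm' hN hNr
    calc _ ≤ 6 * Λ / N * N0 s + 6 * Λ / N * N0 s := add_le_add h1 h2
      _ = _ := by ring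
  have b1 := nl_high hP hΛ hkm hlm hN hNr hΛ0 B
  have b2 := nl_high hP hΛ hkm' hlm' hN hNr hΛ0 B
  have b3 := sum_nl_le0 lD lw B
  have b4 := sum_nl_le0 la lD B
  have hs0 := N0_nonneg s
  have hD0 := N0_nonneg D
  have b3' : 24 * Real.pi * (N0 D * N0 (wv N n s))
      ≤ 24 * Real.pi * ((12 * Λ / N * N0 s) * (8 * N0 s)) :=
    mul_le_mul_of_nonneg_left (mul_le_mul hN0D hN0w (N0_nonneg _) (by positivity)) (by positivity)
  have b4' : 24 * Real.pi * (N0 a * N0 D)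
      ≤ 24 * Real.pi * ((2 * N0 s) * (12 * Λ / N * N0 s)) :=
    mul_le_mul_of_nonneg_left (mul_le_mul hN0a hN0D (N0_nonneg _) (by positivity)) (by positivity)
  calc ∑ k ∈ B, ‖nl (wv N n s) (wv N n s) k - (2 : ℂ) • nl s s k‖ / len k
      = ∑ k ∈ B, ‖(nl (sh m s) (sh m s) + nl (sh (-m) s) (sh (-m) s) + nl D (wv N n s)
          + nl a D) k‖ / len k := by
        rw [← e1]
        rfl
    _ ≤ ∑ k ∈ B, (‖nl (sh m s) (sh m s) k‖ / len k + ‖nl (sh (-m) s) (sh (-m) s) k‖ / len k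
          + ‖nl D (wv N n s) k‖ / len k + ‖nl a D k‖ / len k) := by
        refine Finset.sum_le_sum fun k _ => ?_
        rw [← add_div, ← add_div, ← add_div]
        refine div_le_div_of_nonneg_right ?_ (len_nonneg k)
        exact (norm_add_le _ _).trans (add_le_add ((norm_add_le _ _).trans
          (add_le_add (norm_add_le _ _) le_rfl)) le_rfl)
    _ = ∑ k ∈ B, ‖nl (sh m s) (sh m s) k‖ / len k
          + ∑ k ∈ B, ‖nl (sh (-m) s) (sh (-m) s) k‖ / len k
          + ∑ k ∈ B, ‖nl D (wv N n s) k‖ / len k + ∑ k ∈ B, ‖nl a D k‖ / len k := by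
        rw [Finset.sum_add_distrib, Finset.sum_add_distrib, Finset.sum_add_distrib]
    _ ≤ 48 * Real.pi * Λ / N * (N0 s * N0 s) + 48 * Real.pi * Λ / N * (N0 s * N0 s)
          + 24 * Real.pi * ((12 * Λ / N * N0 s) * (8 * N0 s))
          + 24 * Real.pi * ((2 * N0 s) * (12 * Λ / N * N0 s)) :=
        add_le_add (add_le_add (add_le_add b1 b2) (b3.trans b3')) (b4.trans b4')
    _ = _ := by ring

/-- **Piece Q2.** -/
theorem stmUnit : StmUnit := by
  intro n s P hn0 hP _ hn ε hε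
  set Λ : ℝ := ∑ p ∈ P, len p with hΛ
  have hΛ0 : 0 ≤ Λ := Finset.sum_nonneg fun p _ => len_nonneg p
  have hΛ1 : ∀ p ∈ P, len p ≤ Λ := fun p hp =>
    Finset.single_le_sum (f := fun p => len p) (fun p _ => len_nonneg p) hp
  have h1 : ∀ᶠ N : ℕ in atTop, (2976 * Real.pi * Λ * (N0 s * N0 s)) / (N : ℝ) ≤ ε :=
    (tendsto_const_div_atTop_nhds_zero_nat _).eventually_le_const hε
  filter_upwards [h1, tendsto_natCast_atTop_atTop.eventually_ge_atTop (2 * Λ),
    eventually_gt_atTop 0] with N hN1 hN2 hN3 B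
  refine (unit_le hn0 hP hn hΛ0 hΛ1 hN2 hN3 B).trans (le_trans (le_of_eq ?_) hN1)
  ring

end Pool.Agent.Run7.h969.GG
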