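import Pool.Agent.Run7.h969.GG.Ef

/-!
The approximate solutions: shear waves with finitely many profiles at lacunary frequencies.
-/

set_option autoImplicit false

open MeasureTheory Set Filter Topology
open scoped ContDiff ComplexConjugate NNReal

namespace Pool.Agent.Run7.h969.GG

open H459R3.NS Pool.Agent.Run7.h782 Pool.Agent.Run7.h782.GD Pool.Agent.Run7.h782.GS

section
variable {J : ℕ} (ν : ℝ) (n : Fin J → K3) (s : Fin J → Cf) (z' : Cf) (N : ℕ)

/-- The frequency numbers. -/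
def Mj (j : Fin J) : ℕ := N ^ ((j : ℕ) + 1)

/-- The amplitudes; the decay rates are their squares. -/
noncomputable def rj (j : Fin J) : ℝ := 2 * Real.pi * Real.sqrt ν * len (Mj N j • n j)

/-- The waves. -/
noncomputable def ww (j : Fin J) : Cf := wv (Mj N j) (n j) (s j)

/-- The mean stresses. -/
noncomputable def qq (j : Fin J) : Cf := nl (s j) (s j)

/-- The decay rate of the low part. -/
noncomputable def ls : ℝ := 4 * Real.pi ^ 2 * ν * N ^ 2

/-- Indices. -/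
abbrev Ix (J : ℕ) := Fin J ⊕ (Fin J ⊕ Unit)

/-- Coefficients. -/
noncomputable def cc : Ix J → ℝ := Sum.elim (fun _ => 1) (Sum.elim (rj ν n N) fun _ => 1)

/-- Rates. -/
noncomputable def mu : Ix J → ℝ :=
  Sum.elim (fun j => 2 * rj ν n N j ^ 2) (Sum.elim (fun j => rj ν n N j ^ 2) fun _ => ls ν N)

/-- Families. -/
noncomputable def bb : Ix J → Cf := Sum.elim (qq s) (Sum.elim (ww n s N) fun _ => z')

/-- The low part. -/
noncomputable def lo (t : ℝ) : Cf :=
  ∑ j, ((Real.exp (-(2 * rj ν n N j ^ 2 * t)) : ℝ) : ℂ) • qq s j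
    + ((Real.exp (-(ls ν N * t)) : ℝ) : ℂ) • z'

/-- The amplitude of a wave. -/
noncomputable def am (t : ℝ) (j : Fin J) : ℝ := rj ν n N j * Real.exp (-(rj ν n N j ^ 2 * t))

/-- The waves. -/
noncomputable def hi (t : ℝ) : Cf := ∑ j, ((am ν n N t j : ℝ) : ℂ) • ww n s N j

/-- The mismatch of the rates. -/
noncomputable def rt (j : Fin J) : Cf := fun k =>
  ((lam ν k - lam ν (Mj N j • n j) : ℝ) : ℂ) • ww n s N j k

variable {ν n s z' N}

theorem rj_sq (hν : 0 ≤ ν) (j : Fin J) : rj ν n N j ^ 2 = lam ν (Mj N j • n j) := by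
  rw [rj, lam, mul_pow, mul_pow, mul_pow, Real.sq_sqrt hν, len_sq]
  ring

theorem ef_eq (t : ℝ) : ef (cc ν n N) (mu ν n N) (bb n s z' N) t
    = lo ν n s z' N t + hi ν n s N t := by
  rw [ef, Fintype.sum_sum_type, Fintype.sum_sum_type, lo, hi]
  simp only [cc, mu, bb, Sum.elim_inl, Sum.elim_inr, Finset.univ_unique, Finset.sum_singleton,
    one_mul, am]
  abel

theorem L1.lo' (hs : ∀ j, L1 (qq s j)) (hz : L1 z') (t : ℝ) : L1 (lo ν n s z' N t) :=
  (L1.sum fun j _ => (hs j).smul _).add (hz.smul _)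

theorem L1.hi' (hs : ∀ j, L1 (ww n s N j)) (t : ℝ) : L1 (hi ν n s N t) :=
  L1.sum fun j _ => (hs j).smul _

theorem dis_add (ν : ℝ) (a b : Cf) : dis ν (a + b) = dis ν a + dis ν b := by
  funext k
  rw [Pi.add_apply, dis, dis, dis, Pi.add_apply, smul_add]

theorem dis_smul (ν : ℝ) (c : ℂ) (a : Cf) : dis ν (c • a) = c • dis ν a := by
  funext k
  rw [Pi.smul_apply, dis, dis, Pi.smul_apply, smul_comm]

theorem dis_sum (ν : ℝ) {ι : Type*} (s : Finset ι) (a : ι → Cf) :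
    dis ν (∑ i ∈ s, a i) = ∑ i ∈ s, dis ν (a i) := by
  funext k
  rw [Finset.sum_apply, dis, Finset.sum_apply, Finset.smul_sum]
  rfl

theorem nl_hi (hw : ∀ j, L1 (ww n s N j)) (t : ℝ) :
    nl (hi ν n s N t) (hi ν n s N t)
      = ∑ j, ((am ν n N t j ^ 2 : ℝ) : ℂ) • nl (ww n s N j) (ww n s N j)
        + ∑ i, ∑ j ∈ Finset.univ.erase i,
          ((am ν n N t i * am ν n N t j : ℝ) : ℂ) • nl (ww n s N i) (ww n s N j) := by
  have h1 : nl (hi ν n s N t) (hi ν n s N t) = ∑ i, ∑ j,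
      ((am ν n N t i * am ν n N t j : ℝ) : ℂ) • nl (ww n s N i) (ww n s N j) := by
    have e : nl (hi ν n s N t) (hi ν n s N t)
        = nl (∑ j, ((am ν n N t j : ℝ) : ℂ) • ww n s N j) (hi ν n s N t) := rfl
    rw [e, nl_sum_left (fun i _ => (hw i).smul _) (L1.hi' hw t)]
    refine Finset.sum_congr rfl fun i _ => ?_
    have e2 : nl (((am ν n N t i : ℝ) : ℂ) • ww n s N i) (hi ν n s N t)
        = nl (((am ν n N t i : ℝ) : ℂ) • ww n s N i)
          (∑ j, ((am ν n N t j : ℝ) : ℂ) • ww n s N j) := rfl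
    rw [e2, nl_sum_right ((hw i).smul _) fun j _ => (hw j).smul _]
    refine Finset.sum_congr rfl fun j _ => ?_
    rw [nl_smul_left, nl_smul_right, smul_smul]
    push_cast
    rfl
  rw [h1, ← Finset.sum_add_distrib]
  refine Finset.sum_congr rfl fun i _ => ?_
  rw [← Finset.add_sum_erase _ _ (Finset.mem_univ i), pow_two]

theorem rs_split (hν : 0 ≤ ν) (hq : ∀ j, L1 (qq s j)) (hz : L1 z') (hw : ∀ j, L1 (ww n s N j))
    (t : ℝ) :
    rs ν (cc ν n N) (mu ν n N) (bb n s z' N) t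
      = ∑ j, ((am ν n N t j ^ 2 : ℝ) : ℂ) • (nl (ww n s N j) (ww n s N j) - (2 : ℂ) • qq s j)
        + ((-(ls ν N * Real.exp (-(ls ν N * t))) : ℝ) : ℂ) • z'
        + dis ν (lo ν n s z' N t) + ∑ j, ((am ν n N t j : ℝ) : ℂ) • rt ν n s N j
        + nl (lo ν n s z' N t) (lo ν n s z' N t + hi ν n s N t)
        + nl (hi ν n s N t) (lo ν n s z' N t)
        + ∑ i, ∑ j ∈ Finset.univ.erase i,
          ((am ν n N t i * am ν n N t j : ℝ) : ℂ) • nl (ww n s N i) (ww n s N j) := by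
  have hl := L1.lo' (ν := ν) (n := n) (N := N) hq hz t
  have hh := L1.hi' (ν := ν) hw t
  have e1 : ef (fun i => -(mu ν n N i * cc ν n N i)) (mu ν n N) (bb n s z' N) t
      = ∑ j, ((-(2 * am ν n N t j ^ 2) : ℝ) : ℂ) • qq s j
        + ∑ j, ((-(rj ν n N j ^ 2 * am ν n N t j) : ℝ) : ℂ) • ww n s N j
        + ((-(ls ν N * Real.exp (-(ls ν N * t))) : ℝ) : ℂ) • z' := by
    rw [ef, Fintype.sum_sum_type, Fintype.sum_sum_type, ← add_assoc]
    simp only [cc, mu, bb, Sum.elim_inl, Sum.elim_inr, Finset.univ_unique,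
      Finset.sum_singleton, mul_one]
    have f1 : ∀ j : Fin J, -(2 * rj ν n N j ^ 2) * Real.exp (-(2 * rj ν n N j ^ 2 * t))
        = -(2 * am ν n N t j ^ 2) := by
      intro j
      have h1 : Real.exp (-(2 * rj ν n N j ^ 2 * t))
          = Real.exp (-(rj ν n N j ^ 2 * t)) * Real.exp (-(rj ν n N j ^ 2 * t)) := by
        rw [← Real.exp_add]
        congr 1
        ring
      rw [h1, am]
      ring
    have f2 : ∀ j : Fin J, -(rj ν n N j ^ 2 * rj ν n N j) * Real.exp (-(rj ν n N j ^ 2 * t))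
        = -(rj ν n N j ^ 2 * am ν n N t j) := by
      intro j
      rw [am]
      ring
    simp_rw [f1, f2, neg_mul]
  have e2 : dis ν (hi ν n s N t) = ∑ j, ((am ν n N t j : ℝ) : ℂ) • rt ν n s N j
      + ∑ j, ((rj ν n N j ^ 2 * am ν n N t j : ℝ) : ℂ) • ww n s N j := by
    rw [hi, dis_sum, ← Finset.sum_add_distrib]
    refine Finset.sum_congr rfl fun j _ => ?_
    rw [dis_smul]
    have h1 : dis ν (ww n s N j) = rt ν n s N j + ((rj ν n N j ^ 2 : ℝ) : ℂ) • ww n s N j := by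
      funext k
      rw [Pi.add_apply, Pi.smul_apply, dis, rt, rj_sq hν, ← add_smul, ← Complex.ofReal_add,
        sub_add_cancel]
    rw [h1, smul_add, smul_smul, ← Complex.ofReal_mul, mul_comm (rj ν n N j ^ 2)]
  have e3 : nl (lo ν n s z' N t + hi ν n s N t) (lo ν n s z' N t + hi ν n s N t)
      = nl (lo ν n s z' N t) (lo ν n s z' N t + hi ν n s N t)
        + (nl (hi ν n s N t) (lo ν n s z' N t) + nl (hi ν n s N t) (hi ν n s N t)) := by
    rw [nl_add_left hl hh (hl.add hh)]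
    congr 1
    rw [nl_add_right hh hl hh]
  rw [rs, ef_eq, e1, dis_add, e2, e3, nl_hi hw]
  have e4 : ∑ j, ((am ν n N t j ^ 2 : ℝ) : ℂ) • (nl (ww n s N j) (ww n s N j)
      - (2 : ℂ) • qq s j) = ∑ j, ((am ν n N t j ^ 2 : ℝ) : ℂ) • nl (ww n s N j) (ww n s N j)
        + ∑ j, ((-(2 * am ν n N t j ^ 2) : ℝ) : ℂ) • qq s j := by
    rw [← Finset.sum_add_distrib]
    refine Finset.sum_congr rfl fun j _ => ?_
    rw [smul_sub, sub_eq_add_neg, smul_smul, ← neg_smul]
    congr 2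
    push_cast
    ring
  have e5 : ∑ j, ((-(rj ν n N j ^ 2 * am ν n N t j) : ℝ) : ℂ) • ww n s N j
      = -∑ j, ((rj ν n N j ^ 2 * am ν n N t j : ℝ) : ℂ) • ww n s N j := by
    rw [← Finset.sum_neg_distrib]
    refine Finset.sum_congr rfl fun j _ => ?_
    rw [Complex.ofReal_neg, neg_smul]
  rw [e4, e5]
  abel

end

end Pool.Agent.Run7.h969.GG
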