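import Pool.Agent.Run7.h969.GG.App3

/-!
Bounds of the approximate solutions.
-/

set_option autoImplicit false

open MeasureTheory Set Filter Topology
open scoped ContDiff ComplexConjugate NNReal

namespace Pool.Agent.Run7.h969.GG

open H459R3.NS Pool.Agent.Run7.h782 Pool.Agent.Run7.h782.GD Pool.Agent.Run7.h782.GS

/-- The data of the approximate solutions. -/
structure Dat {J : ℕ} (n : Fin J → K3) (s : Fin J → Cf) (P : Finset K3) (z' : Cf) (Λ nm : ℝ) :
    Prop where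
  n0 : ∀ j, n j ≠ 0
  sP : ∀ j, ∀ p ∉ P, s j p = 0
  zP : ∀ k ∉ P, z' k = 0
  kdn : ∀ j p, kd (n j) (s j p) = 0
  Λ0 : 0 ≤ Λ
  Λ1 : ∀ p ∈ P, len p ≤ Λ
  nm1 : ∀ j, len (n j) ≤ nm

theorem ratio {x y κ : ℝ} (hx : 0 ≤ x) (hy : 0 < y) (hκ : 0 ≤ κ) (h : x ≤ κ * y) :
    x * y / (x ^ 2 + y ^ 2) ≤ κ := by
  rw [div_le_iff₀ (by positivity)]
  nlinarith [mul_nonneg hκ (sq_nonneg x)]

section
variable {J : ℕ} {ν : ℝ} {n : Fin J → K3} {s : Fin J → Cf} {P : Finset K3} {z' : Cf}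
  {Λ nm : ℝ} {N : ℕ}

theorem Mj_ge (hN : 0 < N) (j : Fin J) : N ≤ Mj N j := by
  rw [Mj, pow_succ]
  exact Nat.le_mul_of_pos_left _ (pow_pos hN _)

theorem Mj_pos (hN : 0 < N) (j : Fin J) : 0 < Mj N j := pow_pos hN _

theorem Mj_lt (hN : 0 < N) {i j : Fin J} (h : i < j) : N * Mj N i ≤ Mj N j := by
  rw [Mj, Mj, ← pow_succ']
  exact pow_le_pow_right₀ hN (by
    have : (i : ℕ) < j := h
    omega)

theorem Mj_le (hN : 0 < N) (j : Fin J) : Mj N j ≤ N ^ J := by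
  rw [Mj]
  exact pow_le_pow_right₀ hN (by have := j.2; omega)

variable (D : Dat n s P z' Λ nm) (hν : 0 < ν) (hN : 0 < N) (hNΛ : 2 * Λ ≤ N)
include D hν hN

omit hν in
theorem lm_ge' (j : Fin J) : (N : ℝ) ≤ len (Mj N j • n j) := by
  rw [len_nsmul]
  have h1 := one_le_len (D.n0 j)
  have h2 : (N : ℝ) ≤ (Mj N j : ℝ) := by exact_mod_cast Mj_ge hN j
  have h3 : (0 : ℝ) ≤ N := Nat.cast_nonneg N
  nlinarith

theorem rj_ge (j : Fin J) : Real.sqrt ν * N ≤ rj ν n N j := by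
  have h1 := lm_ge' D hN j
  have h2 := Real.sqrt_nonneg ν
  have h3 : 1 ≤ 2 * Real.pi := by linarith [Real.pi_gt_three]
  have h4 : (0 : ℝ) ≤ N := Nat.cast_nonneg N
  rw [rj]
  calc Real.sqrt ν * N = 1 * Real.sqrt ν * N := by ring
    _ ≤ 2 * Real.pi * Real.sqrt ν * len (Mj N j • n j) :=
      mul_le_mul (mul_le_mul_of_nonneg_right h3 h2) h1 h4 (by positivity)

theorem rj_pos (j : Fin J) : 0 < rj ν n N j := by
  refine lt_of_lt_of_le ?_ (rj_ge D hν hN j)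
  have : (0 : ℝ) < N := by exact_mod_cast hN
  have := Real.sqrt_pos.2 hν
  positivity

theorem ls_le (j : Fin J) : ls ν N ≤ rj ν n N j ^ 2 := by
  have h1 := lm_ge' D hN j
  have h2 : (0 : ℝ) ≤ N := Nat.cast_nonneg N
  have hpi := Real.pi_pos
  rw [rj_sq hν.le, ls, lam, ← len_sq]
  exact mul_le_mul_of_nonneg_left (pow_le_pow_left₀ h2 h1 2) (by positivity)

omit D in
theorem ls_ge : ν * N ≤ ls ν N := by
  have h1 : (1 : ℝ) ≤ N := by exact_mod_cast hN
  have h3 : 1 ≤ 4 * Real.pi ^ 2 := by nlinarith [Real.pi_gt_three]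
  rw [ls]
  have h4 : (N : ℝ) ≤ (N : ℝ) ^ 2 := by nlinarith
  calc ν * N = 1 * ν * N := by ring
    _ ≤ 4 * Real.pi ^ 2 * ν * N ^ 2 :=
      mul_le_mul (mul_le_mul_of_nonneg_right h3 hν.le) h4 (by positivity) (by positivity)

theorem rj_lt {i j : Fin J} (h : i < j) : rj ν n N i ≤ nm / N * rj ν n N j := by
  have hNr : (0 : ℝ) < N := by exact_mod_cast hN
  have h1 : (N : ℝ) * (Mj N i : ℝ) ≤ (Mj N j : ℝ) := by exact_mod_cast Mj_lt hN h
  have h2 := D.nm1 i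
  have h3 := one_le_len (D.n0 j)
  have h4 := len_nonneg (n i)
  have hpi := Real.pi_pos
  have h5 := Real.sqrt_nonneg ν
  rw [rj, rj, len_nsmul, len_nsmul, div_mul_eq_mul_div, le_div_iff₀ hNr]
  have h6 : (Mj N i : ℝ) * len (n i) * N ≤ nm * ((Mj N j : ℝ) * len (n j)) := by
    have h7 : (0 : ℝ) ≤ (Mj N i : ℝ) := Nat.cast_nonneg _
    have h8 : (0 : ℝ) ≤ (Mj N j : ℝ) := Nat.cast_nonneg _
    calc (Mj N i : ℝ) * len (n i) * N = len (n i) * (N * Mj N i) := by ring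
      _ ≤ nm * (Mj N j) := mul_le_mul h2 h1 (by positivity) (h4.trans h2)
      _ ≤ nm * ((Mj N j : ℝ) * len (n j)) := by
        refine mul_le_mul_of_nonneg_left ?_ (h4.trans h2)
        nlinarith
  calc 2 * Real.pi * Real.sqrt ν * ((Mj N i : ℝ) * len (n i)) * N
      = 2 * Real.pi * Real.sqrt ν * ((Mj N i : ℝ) * len (n i) * N) := by ring
    _ ≤ 2 * Real.pi * Real.sqrt ν * (nm * ((Mj N j : ℝ) * len (n j))) :=
        mul_le_mul_of_nonneg_left h6 (by positivity)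
    _ = _ := by ring

theorem rj_ratio {i j : Fin J} (h : i ≠ j) :
    rj ν n N i * rj ν n N j / (rj ν n N i ^ 2 + rj ν n N j ^ 2) ≤ nm / N := by
  have hi := rj_pos D hν hN i
  have hj := rj_pos D hν hN j
  have hNr : (0 : ℝ) < N := by exact_mod_cast hN
  have hnm : 0 ≤ nm / N := div_nonneg ((len_nonneg _).trans (D.nm1 i)) hNr.le
  rcases lt_or_gt_of_ne h with h | h
  · exact ratio hi.le hj hnm (rj_lt D hν hN h)
  · rw [mul_comm, add_comm]
    exact ratio hj.le hi hnm (rj_lt D hν hN h)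

omit hν hN in
theorem ls1 (j : Fin J) : L1 (s j) := L1.of_supp (D.sP j)

omit hν hN in
theorem lz : L1 z' := L1.of_supp D.zP

omit hν hN in
theorem lw (j : Fin J) : L1 (ww n s N j) := L1.wv (ls1 D j) _ _

omit hν hN in
theorem lq (j : Fin J) : L1 (qq s j) := by
  refine L1.of_supp (B := Finset.image₂ (fun x y => x + y) P P) fun k hk => ?_
  exact nl_supp (D.sP j) hk

omit hν hN in
theorem N0ww (j : Fin J) : N0 (ww n s N j) ≤ 8 * N0 (s j) := N0_wv_le (ls1 D j) _ _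

include hNΛ

theorem Xb_unit (B : Finset K3) (j : Fin J) :
    Xb B (nl (ww n s N j) (ww n s N j) - (2 : ℂ) • qq s j)
      ≤ 2976 * Real.pi * Λ / N * N0 (s j) ^ 2 := by
  have hM : 2 * Λ ≤ (Mj N j : ℝ) := hNΛ.trans (by exact_mod_cast Mj_ge hN j)
  have h1 := unit_le (D.n0 j) (D.sP j) (D.kdn j) D.Λ0 D.Λ1 hM (Mj_pos hN j) B
  refine le_trans (le_trans (le_of_eq ?_) h1) ?_
  · rfl
  · have hNr : (0 : ℝ) < N := by exact_mod_cast hN
    have hMr : (N : ℝ) ≤ Mj N j := by exact_mod_cast Mj_ge hN j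
    have hpi := Real.pi_pos
    have h2 := D.Λ0
    have h3 := N0_nonneg (s j)
    rw [← pow_two]
    refine mul_le_mul_of_nonneg_right ?_ (by positivity)
    exact div_le_div_of_nonneg_left (by positivity) hNr hMr

theorem Xb_rt (B : Finset K3) (j : Fin J) :
    Xb B (rt ν n s N j) ≤ 192 * Real.pi ^ 2 * ν * Λ * N0 (s j) := by
  have hM : 2 * Λ ≤ (Mj N j : ℝ) := hNΛ.trans (by exact_mod_cast Mj_ge hN j)
  exact sum_wv_rate (D.n0 j) (D.sP j) D.Λ1 hM (Mj_pos hN j) hν.le D.Λ0 B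

theorem Xb_ww (B : Finset K3) (j : Fin J) :
    Xb B (ww n s N j) ≤ 16 / len (Mj N j • n j) * N0 (s j) := by
  have hM : 2 * Λ ≤ (Mj N j : ℝ) := hNΛ.trans (by exact_mod_cast Mj_ge hN j)
  exact sum_wv_inv (D.n0 j) (D.sP j) D.Λ1 hM (Mj_pos hN j) B

theorem Yb_ww (B : Finset K3) (j : Fin J) :
    Yb B (ww n s N j) ≤ 16 * len (Mj N j • n j) * N0 (s j) := by
  have hM : 2 * Λ ≤ (Mj N j : ℝ) := hNΛ.trans (by exact_mod_cast Mj_ge hN j)
  exact sum_wv_len (D.n0 j) (D.sP j) D.Λ1 hM D.Λ0 B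

end

section
variable {J : ℕ} (ν : ℝ) (n : Fin J → K3) (s : Fin J → Cf) (z' : Cf) (Λ X' : ℝ) (N : ℕ)

/-- The sum norm of the low part. -/
noncomputable def Q0 : ℝ := ∑ j, N0 (qq s j) + N0 z'
/-- The norm with weight `|k|` of the low part. -/
noncomputable def Q1 : ℝ := ∑ j, N1 (qq s j) + N1 z'

/-- Indices of the bound of the residual. -/
abbrev Iy (J : ℕ) := Fin J ⊕ (Unit ⊕ (Fin J ⊕ (Fin J × Fin J)))

/-- Coefficients of the bound of the residual. -/
noncomputable def ga : Iy J → ℝ :=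
  Sum.elim (fun j => rj ν n N j ^ 2 * (2976 * Real.pi * Λ / N * N0 (s j) ^ 2))
    (Sum.elim (fun _ => ls ν N * X' + 4 * Real.pi ^ 2 * ν * Q1 s z'
        + 24 * Real.pi * Q0 s z' ^ 2)
      (Sum.elim (fun j => rj ν n N j * (192 * Real.pi ^ 2 * ν * Λ * N0 (s j)
        + 384 * Real.pi * Q0 s z' * N0 (s j)))
        (fun p => if p.1 = p.2 then 0 else
          1536 * Real.pi * (rj ν n N p.1 * rj ν n N p.2) * (N0 (s p.1) * N0 (s p.2)))))

/-- Rates of the bound of the residual. -/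
noncomputable def gm : Iy J → ℝ :=
  Sum.elim (fun j => 2 * rj ν n N j ^ 2)
    (Sum.elim (fun _ => ls ν N)
      (Sum.elim (fun j => rj ν n N j ^ 2) (fun p => rj ν n N p.1 ^ 2 + rj ν n N p.2 ^ 2)))

/-- The constant of the bound of the integral. -/
noncomputable def KK (nm : ℝ) : ℝ :=
  ∑ j, 1488 * Real.pi * Λ * N0 (s j) ^ 2
    + (4 * Real.pi ^ 2 * ν * Q1 s z' + 24 * Real.pi * Q0 s z' ^ 2) / ν
    + ∑ j, (192 * Real.pi ^ 2 * ν * Λ * N0 (s j) + 384 * Real.pi * Q0 s z' * N0 (s j))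
      / Real.sqrt ν
    + ∑ p : Fin J × Fin J, 1536 * Real.pi * (N0 (s p.1) * N0 (s p.2)) * nm

variable {ν n s z' Λ X' N} {P : Finset K3} {nm : ℝ}

theorem Q0_nonneg : 0 ≤ Q0 s z' :=
  add_nonneg (Finset.sum_nonneg fun j _ => N0_nonneg _) (N0_nonneg _)

theorem Q1_nonneg : 0 ≤ Q1 s z' :=
  add_nonneg (Finset.sum_nonneg fun j _ => N1_nonneg _) (N1_nonneg _)

variable (D : Dat n s P z' Λ nm) (hν : 0 < ν) (hN : 0 < N) (hNΛ : 2 * Λ ≤ N)
include D hν hN hNΛ

omit hNΛ in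
theorem ga_nonneg (hX : 0 ≤ X') (i : Iy J) : 0 ≤ ga ν n s z' Λ X' N i := by
  have hpi := Real.pi_pos
  have h0 := D.Λ0
  have hq0 : 0 ≤ Q0 s z' := Q0_nonneg
  have hq1 : 0 ≤ Q1 s z' := Q1_nonneg
  have hl : 0 ≤ ls ν N := by unfold ls; positivity
  rcases i with j | _ | j | ⟨i, j⟩
  · simp only [ga, Sum.elim_inl]
    positivity
  · simp only [ga, Sum.elim_inl, Sum.elim_inr]
    positivity
  · simp only [ga, Sum.elim_inl, Sum.elim_inr]
    have := (rj_pos D hν hN j).le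
    have := N0_nonneg (s j)
    positivity
  · simp only [ga, Sum.elim_inr]
    split_ifs
    · exact le_rfl
    · have := (rj_pos D hν hN j).le
      have := (rj_pos D hν hN i).le
      have := N0_nonneg (s j)
      have := N0_nonneg (s i)
      positivity

omit hNΛ in
theorem gm_pos (i : Iy J) : 0 < gm ν n N i := by
  rcases i with j | _ | j | ⟨i, j⟩
  · simp only [gm, Sum.elim_inl]
    have := rj_pos D hν hN j
    positivity
  · simp only [gm, Sum.elim_inl, Sum.elim_inr]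
    have hNr : (0 : ℝ) < N := by exact_mod_cast hN
    have := Real.pi_pos
    unfold ls
    positivity
  · simp only [gm, Sum.elim_inl, Sum.elim_inr]
    have := rj_pos D hν hN j
    positivity
  · simp only [gm, Sum.elim_inr]
    have := rj_pos D hν hN j
    positivity

omit hNΛ in
/-- The integral of the bound. -/
theorem ga_sum (hX : 0 ≤ X') :
    ∑ i, ga ν n s z' Λ X' N i / gm ν n N i ≤ X' + KK ν s z' Λ nm / N := by
  have hpi := Real.pi_pos
  have hNr : (0 : ℝ) < N := by exact_mod_cast hN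
  have h0 := D.Λ0
  have hq0 : 0 ≤ Q0 s z' := Q0_nonneg
  have hq1 : 0 ≤ Q1 s z' := Q1_nonneg
  have hsν := Real.sqrt_pos.2 hν
  have hls := ls_ge hν hN
  have hls0 : 0 < ls ν N := lt_of_lt_of_le (by positivity) hls
  rw [Fintype.sum_sum_type, Fintype.sum_sum_type, Fintype.sum_sum_type]
  simp only [ga, gm, Sum.elim_inl, Sum.elim_inr, Finset.univ_unique, Finset.sum_singleton]
  have b1 : ∑ j, rj ν n N j ^ 2 * (2976 * Real.pi * Λ / N * N0 (s j) ^ 2)
      / (2 * rj ν n N j ^ 2) ≤ (∑ j, 1488 * Real.pi * Λ * N0 (s j) ^ 2) / (N : ℝ) := by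
    rw [Finset.sum_div]
    refine Finset.sum_le_sum fun j _ => le_of_eq ?_
    have := rj_pos D hν hN j
    field_simp
    ring
  have b2 : (ls ν N * X' + 4 * Real.pi ^ 2 * ν * Q1 s z' + 24 * Real.pi * Q0 s z' ^ 2)
      / ls ν N ≤ X' + ((4 * Real.pi ^ 2 * ν * Q1 s z' + 24 * Real.pi * Q0 s z' ^ 2) / ν) / N := by
    have e : (ls ν N * X' + 4 * Real.pi ^ 2 * ν * Q1 s z' + 24 * Real.pi * Q0 s z' ^ 2)
        / ls ν N = X' + (4 * Real.pi ^ 2 * ν * Q1 s z' + 24 * Real.pi * Q0 s z' ^ 2) / ls ν N := by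
      field_simp
      ring
    rw [e, div_div]
    refine add_le_add le_rfl (div_le_div_of_nonneg_left (by positivity) (by positivity) hls)
  have b3 : ∑ j, rj ν n N j * (192 * Real.pi ^ 2 * ν * Λ * N0 (s j)
      + 384 * Real.pi * Q0 s z' * N0 (s j)) / rj ν n N j ^ 2
      ≤ (∑ j, (192 * Real.pi ^ 2 * ν * Λ * N0 (s j) + 384 * Real.pi * Q0 s z' * N0 (s j))
        / Real.sqrt ν) / (N : ℝ) := by
    rw [Finset.sum_div]
    refine Finset.sum_le_sum fun j _ => ?_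
    have h1 := rj_pos D hν hN j
    have h2 := rj_ge D hν hN j
    have h3 := N0_nonneg (s j)
    have e : rj ν n N j * (192 * Real.pi ^ 2 * ν * Λ * N0 (s j)
        + 384 * Real.pi * Q0 s z' * N0 (s j)) / rj ν n N j ^ 2
        = (192 * Real.pi ^ 2 * ν * Λ * N0 (s j) + 384 * Real.pi * Q0 s z' * N0 (s j))
          / rj ν n N j := by
      field_simp
    rw [e, div_div]
    exact div_le_div_of_nonneg_left (by positivity) (by positivity) h2
  have b4 : ∑ p : Fin J × Fin J, (if p.1 = p.2 then 0 else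
        1536 * Real.pi * (rj ν n N p.1 * rj ν n N p.2) * (N0 (s p.1) * N0 (s p.2)))
          / (rj ν n N p.1 ^ 2 + rj ν n N p.2 ^ 2)
      ≤ (∑ p : Fin J × Fin J, 1536 * Real.pi * (N0 (s p.1) * N0 (s p.2)) * nm) / (N : ℝ) := by
    rw [Finset.sum_div]
    refine Finset.sum_le_sum fun p _ => ?_
    have h1 := N0_nonneg (s p.1)
    have h2 := N0_nonneg (s p.2)
    have h3 : 0 ≤ nm := (len_nonneg _).trans (D.nm1 p.1)
    split_ifs with h
    · rw [zero_div]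
      positivity
    · have h4 := rj_ratio D hν hN h
      calc 1536 * Real.pi * (rj ν n N p.1 * rj ν n N p.2) * (N0 (s p.1) * N0 (s p.2))
            / (rj ν n N p.1 ^ 2 + rj ν n N p.2 ^ 2)
          = 1536 * Real.pi * (N0 (s p.1) * N0 (s p.2)) * (rj ν n N p.1 * rj ν n N p.2
            / (rj ν n N p.1 ^ 2 + rj ν n N p.2 ^ 2)) := by ring
        _ ≤ 1536 * Real.pi * (N0 (s p.1) * N0 (s p.2)) * (nm / N) :=
            mul_le_mul_of_nonneg_left h4 (by positivity)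
        _ = _ := by ring
  have e : X' + KK ν s z' Λ nm / N = (∑ j, 1488 * Real.pi * Λ * N0 (s j) ^ 2) / (N : ℝ)
      + ((X' + ((4 * Real.pi ^ 2 * ν * Q1 s z' + 24 * Real.pi * Q0 s z' ^ 2) / ν) / N)
      + ((∑ j, (192 * Real.pi ^ 2 * ν * Λ * N0 (s j) + 384 * Real.pi * Q0 s z' * N0 (s j))
        / Real.sqrt ν) / (N : ℝ)
      + (∑ p : Fin J × Fin J, 1536 * Real.pi * (N0 (s p.1) * N0 (s p.2)) * nm) / (N : ℝ))) := by
    rw [KK]
    ring
  rw [e]
  exact add_le_add b1 (add_le_add b2 (add_le_add b3 b4))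

end

end Pool.Agent.Run7.h969.GG
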