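import Pool.Agent.Run7.h969.GG.Wv
import Pool.Agent.Run7.h782.GS.Step1

/-!
Sums of exponentials.
-/

set_option autoImplicit false

open MeasureTheory Set Filter Topology
open scoped ContDiff ComplexConjugate NNReal

namespace Pool.Agent.Run7.h969.GG

open H459R3.NS Pool.Agent.Run7.h782 Pool.Agent.Run7.h782.GD Pool.Agent.Run7.h782.GS

/-! ### Scalars -/

section
variable {ι : Type*} [Fintype ι]

/-- Sums of exponentials. -/
noncomputable def ge (a μ : ι → ℝ) (t : ℝ) : ℝ := ∑ i, a i * Real.exp (-(μ i * t))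

theorem ge_cont (a μ : ι → ℝ) : Continuous (ge a μ) := by
  unfold ge
  fun_prop

theorem int_exp_le {μ : ℝ} (hμ : 0 < μ) {T : ℝ} (hT : 0 ≤ T) :
    ∫ t in (0 : ℝ)..T, Real.exp (-(μ * t)) ≤ 1 / μ := by
  have h1 : ∀ t ∈ uIcc 0 T, HasDerivAt (fun t => -(1 / μ) * Real.exp (-(μ * t)))
      (Real.exp (-(μ * t))) t := by
    intro t _
    have h2 : HasDerivAt (fun t : ℝ => -(μ * t)) (-μ) t := by
      have := ((hasDerivAt_id t).const_mul μ).fun_neg
      simpa using this
    have h3 := (h2.exp).const_mul (-(1 / μ))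
    refine h3.congr_deriv ?_
    field_simp
  have hc : Continuous fun t : ℝ => Real.exp (-(μ * t)) := by fun_prop
  rw [intervalIntegral.integral_eq_sub_of_hasDerivAt h1 (hc.intervalIntegrable _ _)]
  have h4 : 0 ≤ 1 / μ * Real.exp (-(μ * T)) := by positivity
  simp only [mul_zero, neg_zero, Real.exp_zero, mul_one]
  linarith

theorem ge_int {a μ : ι → ℝ} (ha : ∀ i, 0 ≤ a i) (hμ : ∀ i, 0 < μ i) {T : ℝ} (hT : 0 ≤ T) :
    ∫ t in (0 : ℝ)..T, ge a μ t ≤ ∑ i, a i / μ i := by
  unfold ge
  have hc : ∀ i, Continuous fun t : ℝ => a i * Real.exp (-(μ i * t)) := fun i => by fun_prop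
  rw [intervalIntegral.integral_finsetSum fun i _ => (hc i).intervalIntegrable _ _]
  refine Finset.sum_le_sum fun i _ => ?_
  rw [intervalIntegral.integral_const_mul, div_eq_mul_one_div]
  exact mul_le_mul_of_nonneg_left (int_exp_le (hμ i) hT) (ha i)

end

/-! ### The seminorm of order `-1` over a finite set -/

/-- The sum norm of order `-1` over `B`. -/
noncomputable def Xb (B : Finset K3) (a : Cf) : ℝ := ∑ k ∈ B, ‖a k‖ / len k

theorem Xb_nonneg (B : Finset K3) (a : Cf) : 0 ≤ Xb B a :=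
  Finset.sum_nonneg fun k _ => div_nonneg (norm_nonneg _) (len_nonneg k)

theorem Xb_add (B : Finset K3) (a b : Cf) : Xb B (a + b) ≤ Xb B a + Xb B b := by
  unfold Xb
  rw [← Finset.sum_add_distrib]
  refine Finset.sum_le_sum fun k _ => ?_
  rw [← add_div]
  exact div_le_div_of_nonneg_right (norm_add_le _ _) (len_nonneg k)

theorem Xb_zero (B : Finset K3) : Xb B 0 = 0 := by
  unfold Xb
  exact Finset.sum_eq_zero fun k _ => by simp

theorem Xb_smul (B : Finset K3) (c : ℝ) (a : Cf) : Xb B ((c : ℂ) • a) = |c| * Xb B a := by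
  unfold Xb
  rw [Finset.mul_sum]
  refine Finset.sum_congr rfl fun k _ => ?_
  rw [Pi.smul_apply, norm_smul, Complex.norm_real, Real.norm_eq_abs, mul_div_assoc]

theorem Xb_sum (B : Finset K3) {ι : Type*} (s : Finset ι) (a : ι → Cf) :
    Xb B (∑ i ∈ s, a i) ≤ ∑ i ∈ s, Xb B (a i) := by
  classical
  induction s using Finset.induction_on with
  | empty => simp [Xb_zero]
  | insert i s hi ih =>
    rw [Finset.sum_insert hi, Finset.sum_insert hi]
    exact (Xb_add B _ _).trans (add_le_add le_rfl ih)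

theorem Xb_dis {ν : ℝ} (hν : 0 ≤ ν) (B : Finset K3) {a : Cf}
    (ha : Summable fun k => len k * ‖a k‖) :
    Xb B (dis ν a) ≤ 4 * Real.pi ^ 2 * ν * N1 a := by
  have hpi := Real.pi_pos
  have h1 : ∀ k, ‖dis ν a k‖ / len k = 4 * Real.pi ^ 2 * ν * (len k * ‖a k‖) := by
    intro k
    by_cases hk : k = 0
    · subst hk
      simp
    have hl := len_pos hk
    rw [dis, norm_smul, Complex.norm_real, Real.norm_of_nonneg, lam, ← len_sq]
    · field_simp
    · rw [lam, ← len_sq]
      positivity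
  unfold Xb
  rw [Finset.sum_congr rfl fun k _ => h1 k, ← Finset.mul_sum]
  refine mul_le_mul_of_nonneg_left ?_ (by positivity)
  exact ha.sum_le_tsum B fun k _ => mul_nonneg (len_nonneg k) (norm_nonneg _)

theorem N0_smul (c : ℝ) (a : Cf) : N0 ((c : ℂ) • a) = |c| * N0 a := by
  rw [N0_eq, N0_eq, ← tsum_mul_left]
  refine tsum_congr fun k => ?_
  rw [Pi.smul_apply, norm_smul, Complex.norm_real, Real.norm_eq_abs]

theorem N0_sum {ι : Type*} (s : Finset ι) {a : ι → Cf} (ha : ∀ i ∈ s, L1 (a i)) :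
    N0 (∑ i ∈ s, a i) ≤ ∑ i ∈ s, N0 (a i) := by
  classical
  induction s using Finset.induction_on with
  | empty => simp [N0_eq]
  | insert i s hi ih =>
    rw [Finset.sum_insert hi, Finset.sum_insert hi]
    have h1 : ∀ j ∈ s, L1 (a j) := fun j hj => ha j (Finset.mem_insert_of_mem hj)
    exact (N0_add_le (ha i (Finset.mem_insert_self _ _)) (L1.sum h1)).trans
      (add_le_add le_rfl (ih h1))

/-- The seminorm with the weight `|k|` over `B`. -/
noncomputable def Yb (B : Finset K3) (a : Cf) : ℝ := ∑ k ∈ B, len k * ‖a k‖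

theorem Yb_add (B : Finset K3) (a b : Cf) : Yb B (a + b) ≤ Yb B a + Yb B b := by
  unfold Yb
  rw [← Finset.sum_add_distrib]
  refine Finset.sum_le_sum fun k _ => ?_
  rw [← mul_add]
  exact mul_le_mul_of_nonneg_left (norm_add_le _ _) (len_nonneg k)

theorem Yb_zero (B : Finset K3) : Yb B 0 = 0 := by
  unfold Yb
  exact Finset.sum_eq_zero fun k _ => by simp

theorem Yb_smul (B : Finset K3) (c : ℝ) (a : Cf) : Yb B ((c : ℂ) • a) = |c| * Yb B a := by
  unfold Yb
  rw [Finset.mul_sum]
  refine Finset.sum_congr rfl fun k _ => ?_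
  rw [Pi.smul_apply, norm_smul, Complex.norm_real, Real.norm_eq_abs]
  ring

theorem Yb_sum (B : Finset K3) {ι : Type*} (s : Finset ι) (a : ι → Cf) :
    Yb B (∑ i ∈ s, a i) ≤ ∑ i ∈ s, Yb B (a i) := by
  classical
  induction s using Finset.induction_on with
  | empty => simp [Yb_zero]
  | insert i s hi ih =>
    rw [Finset.sum_insert hi, Finset.sum_insert hi]
    exact (Yb_add B _ _).trans (add_le_add le_rfl ih)

/-! ### Families -/

section
variable {ι : Type*} [Fintype ι]

/-- Sums of exponentials with values in the families of coefficients. -/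
noncomputable def ef (c μ : ι → ℝ) (b : ι → Cf) (t : ℝ) : Cf :=
  ∑ i, ((c i * Real.exp (-(μ i * t)) : ℝ) : ℂ) • b i

theorem ef_apply (c μ : ι → ℝ) (b : ι → Cf) (t : ℝ) (k : K3) :
    ef c μ b t k = ∑ i, ((c i * Real.exp (-(μ i * t)) : ℝ) : ℂ) • b i k := by
  rw [ef, Finset.sum_apply]
  rfl

theorem ef_deriv (c μ : ι → ℝ) (b : ι → Cf) (t : ℝ) (k : K3) :
    HasDerivAt (fun t => ef c μ b t k) (ef (fun i => -(μ i * c i)) μ b t k) t := by
  simp_rw [ef_apply]
  refine HasDerivAt.fun_sum fun i _ => ?_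
  have h2 : HasDerivAt (fun t : ℝ => -(μ i * t)) (-μ i) t := by
    have := ((hasDerivAt_id t).const_mul (μ i)).fun_neg
    simpa using this
  have h3 := ((h2.exp).const_mul (c i)).ofReal_comp
  have h4 := h3.smul_const (b i k)
  refine h4.congr_deriv ?_
  congr 2
  ring

theorem ef_cont (c μ : ι → ℝ) (b : ι → Cf) (k : K3) : Continuous fun t => ef c μ b t k :=
  continuous_iff_continuousAt.2 fun t => (ef_deriv c μ b t k).continuousAt

theorem Herm.zero : Herm 0 := fun k i => by simp

theorem Herm.sum {κ : Type*} {s : Finset κ} {a : κ → Cf} (h : ∀ i ∈ s, Herm (a i)) :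
    Herm (∑ i ∈ s, a i) := by
  classical
  induction s using Finset.induction_on with
  | empty => simpa using Herm.zero
  | insert i s hi ih =>
    rw [Finset.sum_insert hi]
    exact (h i (Finset.mem_insert_self _ _)).add (ih fun j hj => h j (Finset.mem_insert_of_mem hj))

theorem Dv.zero : Dv 0 := fun k => kd_zero_right k

theorem Dv.sum {κ : Type*} {s : Finset κ} {a : κ → Cf} (h : ∀ i ∈ s, Dv (a i)) :
    Dv (∑ i ∈ s, a i) := by
  classical
  induction s using Finset.induction_on with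
  | empty => simpa using Dv.zero
  | insert i s hi ih =>
    rw [Finset.sum_insert hi]
    exact (h i (Finset.mem_insert_self _ _)).add (ih fun j hj => h j (Finset.mem_insert_of_mem hj))

variable {b : ι → Cf} {Q : Finset K3}

theorem ef_herm (h : ∀ i, Herm (b i)) (c μ : ι → ℝ) (t : ℝ) : Herm (ef c μ b t) :=
  Herm.sum fun i _ => (h i).smul _

theorem ef_dv (h : ∀ i, Dv (b i)) (c μ : ι → ℝ) (t : ℝ) : Dv (ef c μ b t) :=
  Dv.sum fun i _ => (h i).smul _

theorem ef_supp (h : ∀ i, ∀ k ∉ Q, b i k = 0) (c μ : ι → ℝ) (t : ℝ) :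
    ∀ k ∉ Q, ef c μ b t k = 0 := by
  intro k hk
  rw [ef_apply]
  exact Finset.sum_eq_zero fun i _ => by rw [h i k hk, smul_zero]

/-- The residual of a sum of exponentials. -/
noncomputable def rs (ν : ℝ) (c μ : ι → ℝ) (b : ι → Cf) (t : ℝ) : Cf :=
  ef (fun i => -(μ i * c i)) μ b t + dis ν (ef c μ b t) + nl (ef c μ b t) (ef c μ b t)

/-- Sums of exponentials are approximate solutions. -/
theorem appr_ef (ν : ℝ) (hh : ∀ i, Herm (b i)) (hd : ∀ i, Dv (b i)) (h0 : ∀ i, b i 0 = 0)
    (hQ : ∀ i, ∀ k ∉ Q, b i k = 0) (c μ : ι → ℝ) :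
    Appr ν ((Q ∪ Finset.image₂ (fun x y => x + y) Q Q).erase 0) (ef c μ b) (rs ν c μ b) := by
  have hz : ∀ c : ι → ℝ, ∀ t, ef c μ b t 0 = 0 := fun c t => by
    rw [ef_apply]
    exact Finset.sum_eq_zero fun i _ => by rw [h0 i, smul_zero]
  have hm : GS.Maj (ef c μ b) := maj_of_supp (fun t _ => ef_supp hQ c μ t)
    fun k => (ef_cont c μ b k).continuousOn
  have hc : GS.Cnt (ef c μ b) := fun k => (ef_cont c μ b k).continuousOn
  refine
    { zero := Finset.notMem_erase _ _
      suppv := fun t k hk => ?_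
      suppF := fun t k hk => ?_
      contF := fun k => ?_
      hermv := fun t _ => ef_herm hh c μ t
      hermF := fun t _ => ((ef_herm hh _ μ t).add ((ef_herm hh c μ t).dis ν)).add
        (herm_nl (ef_herm hh c μ t) (ef_herm hh c μ t))
      divv := fun t _ => ef_dv hd c μ t
      divF := fun t _ => ((ef_dv hd _ μ t).add ((ef_dv hd c μ t).dis ν)).add (dv_nl _ _)
      der := fun t _ k => ?_ }
  · by_cases hk0 : k = 0
    · rw [hk0, hz]
    · refine ef_supp hQ c μ t k fun h => hk ?_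
      rw [Finset.mem_erase]
      exact ⟨hk0, Finset.mem_union_left _ h⟩
  · by_cases hk0 : k = 0
    · rw [hk0, rs, Pi.add_apply, Pi.add_apply, nl_zero_mode, hz, dis, hz, smul_zero]
      simp
    · have h1 : k ∉ Q := fun h => hk (by
        rw [Finset.mem_erase]
        exact ⟨hk0, Finset.mem_union_left _ h⟩)
      have h2 : k ∉ Finset.image₂ (fun x y => x + y) Q Q := fun h => hk (by
        rw [Finset.mem_erase]
        exact ⟨hk0, Finset.mem_union_right _ h⟩)
      rw [rs, Pi.add_apply, Pi.add_apply, nl_supp (ef_supp hQ c μ t) h2, dis,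
        ef_supp hQ c μ t k h1, ef_supp hQ _ μ t k h1, smul_zero]
      simp
  · have h1 : GS.Cnt fun t => nl (ef c μ b t) (ef c μ b t) := hc.nl hc hm hm
    refine ((ef_cont _ μ b k).continuousOn.add ?_).add (h1 k)
    have h2 : Continuous fun t => (lam ν k : ℂ) • ef c μ b t k :=
      Continuous.const_smul (ef_cont c μ b k) (lam ν k : ℂ)
    exact h2.continuousOn
  · refine ((ef_deriv c μ b t k).hasDerivWithinAt).congr_deriv ?_
    rw [rs, Pi.add_apply, Pi.add_apply, dis]
    rw [neg_smul]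
    abel

end

end Pool.Agent.Run7.h969.GG
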