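import Pool.Agent.Run7.h969.GG.Fin3
import Pool.Agent.Run7.h835.GG.Dec
import Pool.Agent.Run7.h308.GS.Q4
import Pool.Agent.Run7.h308.GS.Q5
import Pool.Agent.Run7.h308.GS.Q6
import Pool.Agent.Run7.h407.GS.App2
import Pool.Agent.Run7.h782.GS.P1
import Pool.Agent.Run7.h782.GS.P3
import Pool.Agent.Run7.h782.GS.Step3
import Pool.Agent.Run7.h782.GD.T1
import Pool.Agent.Run7.h32.GD.Phys
import Pool.Agent.Run7.h969.GD.Tgt5

/-!
The universal gap.
-/

set_option autoImplicit false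

namespace Pool.Agent.Run7.h969.GG

theorem stmStep : Pool.Agent.Run7.h782.GS.StmStep :=
  Pool.Agent.Run7.h782.GS.step Pool.Agent.Run7.h782.GD.stmT1 Pool.Agent.Run7.h407.GD.stmApp2
    Pool.Agent.Run7.h782.GS.stmInt Pool.Agent.Run7.h782.GS.stmProp

theorem stmStepX : StmStepX :=
  Pool.Agent.Run7.h308.GS.stepX Pool.Agent.Run7.h782.GD.stmT1
    (app3 Pool.Agent.Run7.h835.GG.stmDec) Pool.Agent.Run7.h782.GS.stmInt
    Pool.Agent.Run7.h782.GS.stmProp

theorem stmStepU : StmStepU := Pool.Agent.Run7.h308.GS.stepU stmStepX stmStep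

theorem stmGap : StmGap :=
  Pool.Agent.Run7.h308.GS.gap stmStepU Pool.Agent.Run7.h969.GD.stmTg'
    Pool.Agent.Run7.h32.GD.stmPhys

end Pool.Agent.Run7.h969.GG
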