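import Pool.Agent.Run7.h969.GG.Bnd

/-!
The pointwise bounds of the approximate solutions.
-/

set_option autoImplicit false

open MeasureTheory Set Filter Topology
open scoped ContDiff ComplexConjugate NNReal

namespace Pool.Agent.Run7.h969.GG

open H459R3.NS Pool.Agent.Run7.h782 Pool.Agent.Run7.h782.GD Pool.Agent.Run7.h782.GS

theorem summable_len_of_supp {a : Cf} {Q : Finset K3} (h : ∀ k ∉ Q, a k = 0) :
    Summable fun k => len k * ‖a k‖ :=
  summable_of_ne_finset_zero (s := Q) fun k hk => by rw [h k hk, norm_zero, mul_zero]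

theorem sum_le_N0' {a : Cf} (ha : L1 a) (B : Finset K3) : ∑ k ∈ B, ‖a k‖ ≤ N0 a := by
  rw [N0_eq]
  exact Summable.sum_le_tsum B (fun k _ => norm_nonneg _) ha

section
variable {J : ℕ} {ν : ℝ} {n : Fin J → K3} {s : Fin J → Cf} {P : Finset K3} {z' : Cf}
  {Λ nm X' : ℝ} {N : ℕ}
variable (D : Dat n s P z' Λ nm) (hν : 0 < ν) (hN : 0 < N) (hNΛ : 2 * Λ ≤ N)
include D hν hN

theorem am_nonneg (t : ℝ) (j : Fin J) : 0 ≤ am ν n N t j :=
  mul_nonneg (rj_pos D hν hN j).le (Real.exp_pos _).le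

omit D hν hN in
theorem am_sq (t : ℝ) (j : Fin J) :
    am ν n N t j ^ 2 = rj ν n N j ^ 2 * Real.exp (-(2 * rj ν n N j ^ 2 * t)) := by
  have h1 : Real.exp (-(2 * rj ν n N j ^ 2 * t))
      = Real.exp (-(rj ν n N j ^ 2 * t)) ^ 2 := by
    rw [← Real.exp_nat_mul]
    congr 1
    push_cast
    ring
  rw [h1, am, mul_pow]

omit D in
theorem e0_le {t : ℝ} (ht : 0 ≤ t) : Real.exp (-(ls ν N * t)) ≤ 1 := by
  refine Real.exp_le_one_iff.2 ?_
  have h1 := ls_ge hν hN
  have h2 : (0 : ℝ) ≤ N := Nat.cast_nonneg N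
  have h3 : 0 ≤ ls ν N := le_trans (by positivity) h1
  nlinarith [mul_nonneg h3 ht]

theorem e2_le {t : ℝ} (ht : 0 ≤ t) (j : Fin J) :
    Real.exp (-(2 * rj ν n N j ^ 2 * t)) ≤ Real.exp (-(ls ν N * t)) := by
  refine Real.exp_le_exp.2 ?_
  have h1 := ls_le D hν hN j
  nlinarith [mul_nonneg (sub_nonneg.2 h1) ht, mul_nonneg (sq_nonneg (rj ν n N j)) ht]

theorem e1_le {t : ℝ} (ht : 0 ≤ t) (j : Fin J) :
    Real.exp (-(rj ν n N j ^ 2 * t)) ≤ Real.exp (-(ls ν N * t)) := by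
  refine Real.exp_le_exp.2 ?_
  have h1 := ls_le D hν hN j
  nlinarith [mul_nonneg (sub_nonneg.2 h1) ht]

omit D hν hN in
theorem supp_qq (D : Dat n s P z' Λ nm) (j : Fin J) :
    ∀ k ∉ Finset.image₂ (fun x y => x + y) P P, qq s j k = 0 := fun _ hk => nl_supp (D.sP j) hk

theorem N0_lo {t : ℝ} (ht : 0 ≤ t) :
    N0 (lo ν n s z' N t) ≤ Q0 s z' * Real.exp (-(ls ν N * t)) := by
  have hq := lq D
  have hz := lz D
  refine (N0_add_le (L1.sum fun j _ => (hq j).smul _) (hz.smul _)).trans ?_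
  rw [Q0, add_mul, N0_smul, abs_of_pos (Real.exp_pos _)]
  refine add_le_add ((N0_sum _ fun j _ => (hq j).smul _).trans ?_) (le_of_eq (mul_comm _ _))
  rw [Finset.sum_mul]
  refine Finset.sum_le_sum fun j _ => ?_
  rw [N0_smul, abs_of_pos (Real.exp_pos _), mul_comm]
  exact mul_le_mul_of_nonneg_left (e2_le D hν hN ht j) (N0_nonneg _)

theorem N0_hi (t : ℝ) : N0 (hi ν n s N t) ≤ ∑ j, am ν n N t j * (8 * N0 (s j)) := by
  refine (N0_sum _ fun j _ => (lw D j).smul _).trans (Finset.sum_le_sum fun j _ => ?_)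
  rw [N0_smul, abs_of_nonneg (am_nonneg D hν hN t j)]
  exact mul_le_mul_of_nonneg_left (N0ww D j) (am_nonneg D hν hN t j)

theorem Xb_dis_lo (B : Finset K3) {t : ℝ} (ht : 0 ≤ t) :
    Xb B (dis ν (lo ν n s z' N t))
      ≤ 4 * Real.pi ^ 2 * ν * Q1 s z' * Real.exp (-(ls ν N * t)) := by
  have hpi := Real.pi_pos
  rw [lo, dis_add, dis_sum, dis_smul]
  refine (Xb_add B _ _).trans ?_
  rw [Q1, mul_add, add_mul, Xb_smul, abs_of_pos (Real.exp_pos _)]
  refine add_le_add ((Xb_sum B _ _).trans ?_) ?_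
  · rw [Finset.mul_sum, Finset.sum_mul]
    refine Finset.sum_le_sum fun j _ => ?_
    rw [dis_smul, Xb_smul, abs_of_pos (Real.exp_pos _), mul_comm]
    have h1 := Xb_dis hν.le B (summable_len_of_supp (supp_qq D j))
    exact mul_le_mul h1 (e2_le D hν hN ht j) (Real.exp_pos _).le
      (by have := N1_nonneg (qq s j); positivity)
  · rw [mul_comm]
    exact mul_le_mul_of_nonneg_right (Xb_dis hν.le B (summable_len_of_supp D.zP))
      (Real.exp_pos _).le

include hNΛ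

theorem rs_le (B : Finset K3) (hX : Xb B z' ≤ X') {t : ℝ} (ht : 0 ≤ t) :
    Xb B (rs ν (cc ν n N) (mu ν n N) (bb n s z' N) t)
      ≤ ge (ga ν n s z' Λ X' N) (gm ν n N) t := by
  have hpi := Real.pi_pos
  have hNr : (0 : ℝ) < N := by exact_mod_cast hN
  have hls0 : 0 ≤ ls ν N := le_trans (by positivity) (ls_ge hν hN)
  have hQ0 : 0 ≤ Q0 s z' := Q0_nonneg
  have he0 := Real.exp_pos (-(ls ν N * t))
  have he1 := e0_le (N := N) hν hN ht
  have hl := L1.lo' (ν := ν) (n := n) (N := N) (lq D) (lz D) t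
  have hh := L1.hi' (ν := ν) (N := N) (lw D) t
  rw [rs_split hν.le (lq D) (lz D) (lw D) t]
  -- the seven terms
  have t1 : Xb B (∑ j, ((am ν n N t j ^ 2 : ℝ) : ℂ) •
      (nl (ww n s N j) (ww n s N j) - (2 : ℂ) • qq s j))
      ≤ ∑ j, rj ν n N j ^ 2 * (2976 * Real.pi * Λ / N * N0 (s j) ^ 2)
        * Real.exp (-(2 * rj ν n N j ^ 2 * t)) := by
    refine (Xb_sum B _ _).trans (Finset.sum_le_sum fun j _ => ?_)
    rw [Xb_smul, abs_of_nonneg (sq_nonneg _)]
    refine (mul_le_mul_of_nonneg_left (Xb_unit D hν hN hNΛ B j) (sq_nonneg _)).trans ?_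
    rw [am_sq]
    exact le_of_eq (by ring)
  have t2 : Xb B (((-(ls ν N * Real.exp (-(ls ν N * t))) : ℝ) : ℂ) • z')
      ≤ ls ν N * X' * Real.exp (-(ls ν N * t)) := by
    rw [Xb_smul, abs_neg, abs_of_nonneg (by positivity)]
    calc ls ν N * Real.exp (-(ls ν N * t)) * Xb B z'
        ≤ ls ν N * Real.exp (-(ls ν N * t)) * X' := mul_le_mul_of_nonneg_left hX (by positivity)
      _ = _ := by ring
  have t3 := Xb_dis_lo D hν hN B ht
  have t4 : Xb B (∑ j, ((am ν n N t j : ℝ) : ℂ) • rt ν n s N j)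
      ≤ ∑ j, am ν n N t j * (192 * Real.pi ^ 2 * ν * Λ * N0 (s j)) := by
    refine (Xb_sum B _ _).trans (Finset.sum_le_sum fun j _ => ?_)
    rw [Xb_smul, abs_of_nonneg (am_nonneg D hν hN t j)]
    exact mul_le_mul_of_nonneg_left (Xb_rt D hν hN hNΛ B j) (am_nonneg D hν hN t j)
  have n1 := N0_lo D hν hN ht
  have n2 := N0_hi D hν hN t
  have n3 := N0_nonneg (lo ν n s z' N t)
  have n4 := N0_nonneg (hi ν n s N t)
  have t56 : Xb B (nl (lo ν n s z' N t) (lo ν n s z' N t + hi ν n s N t))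
      + Xb B (nl (hi ν n s N t) (lo ν n s z' N t))
      ≤ 24 * Real.pi * Q0 s z' ^ 2 * Real.exp (-(ls ν N * t))
        + ∑ j, am ν n N t j * (384 * Real.pi * Q0 s z' * N0 (s j)) := by
    have h1 := sum_nl_le0 hl (hl.add hh) B
    have h2 := sum_nl_le0 hh hl B
    have h3 := N0_add_le hl hh
    have h4 : N0 (lo ν n s z' N t) ≤ Q0 s z' :=
      n1.trans (mul_le_of_le_one_right hQ0 he1)
    have h5 : N0 (lo ν n s z' N t) * (N0 (lo ν n s z' N t) + N0 (hi ν n s N t))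
        ≤ Q0 s z' ^ 2 * Real.exp (-(ls ν N * t)) + Q0 s z' * N0 (hi ν n s N t) := by
      have h6 : N0 (lo ν n s z' N t) * N0 (lo ν n s z' N t)
          ≤ Q0 s z' * (Q0 s z' * Real.exp (-(ls ν N * t))) := mul_le_mul h4 n1 n3 hQ0
      have h7 : N0 (lo ν n s z' N t) * N0 (hi ν n s N t) ≤ Q0 s z' * N0 (hi ν n s N t) :=
        mul_le_mul_of_nonneg_right h4 n4
      nlinarith
    have h8 : N0 (hi ν n s N t) * N0 (lo ν n s z' N t) ≤ Q0 s z' * N0 (hi ν n s N t) := by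
      rw [mul_comm]
      exact mul_le_mul_of_nonneg_right h4 n4
    have h9 : Xb B (nl (lo ν n s z' N t) (lo ν n s z' N t + hi ν n s N t))
        ≤ 24 * Real.pi * (N0 (lo ν n s z' N t) * (N0 (lo ν n s z' N t) + N0 (hi ν n s N t))) :=
      h1.trans (mul_le_mul_of_nonneg_left (mul_le_mul_of_nonneg_left h3 n3) (by positivity))
    have h10 : Xb B (nl (hi ν n s N t) (lo ν n s z' N t))
        ≤ 24 * Real.pi * (N0 (hi ν n s N t) * N0 (lo ν n s z' N t)) := h2
    have h11 : 24 * Real.pi * (N0 (lo ν n s z' N t)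
        * (N0 (lo ν n s z' N t) + N0 (hi ν n s N t)))
        ≤ 24 * Real.pi * (Q0 s z' ^ 2 * Real.exp (-(ls ν N * t))
          + Q0 s z' * N0 (hi ν n s N t)) := mul_le_mul_of_nonneg_left h5 (by positivity)
    have h12 : 24 * Real.pi * (N0 (hi ν n s N t) * N0 (lo ν n s z' N t))
        ≤ 24 * Real.pi * (Q0 s z' * N0 (hi ν n s N t)) :=
      mul_le_mul_of_nonneg_left h8 (by positivity)
    have h13 : 48 * Real.pi * Q0 s z' * N0 (hi ν n s N t)
        ≤ ∑ j, am ν n N t j * (384 * Real.pi * Q0 s z' * N0 (s j)) := by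
      refine (mul_le_mul_of_nonneg_left n2 (by positivity)).trans (le_of_eq ?_)
      rw [Finset.mul_sum]
      exact Finset.sum_congr rfl fun j _ => by ring
    calc _ ≤ 24 * Real.pi * (Q0 s z' ^ 2 * Real.exp (-(ls ν N * t))
          + Q0 s z' * N0 (hi ν n s N t)) + 24 * Real.pi * (Q0 s z' * N0 (hi ν n s N t)) :=
          add_le_add (h9.trans h11) (h10.trans h12)
      _ = 24 * Real.pi * Q0 s z' ^ 2 * Real.exp (-(ls ν N * t))
          + 48 * Real.pi * Q0 s z' * N0 (hi ν n s N t) := by ring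
      _ ≤ _ := add_le_add le_rfl h13
  have t7 : Xb B (∑ i, ∑ j ∈ Finset.univ.erase i,
      ((am ν n N t i * am ν n N t j : ℝ) : ℂ) • nl (ww n s N i) (ww n s N j))
      ≤ ∑ p : Fin J × Fin J, (if p.1 = p.2 then 0 else
          1536 * Real.pi * (rj ν n N p.1 * rj ν n N p.2) * (N0 (s p.1) * N0 (s p.2)))
        * Real.exp (-((rj ν n N p.1 ^ 2 + rj ν n N p.2 ^ 2) * t)) := by
    rw [Fintype.sum_prod_type]
    refine (Xb_sum B _ _).trans (Finset.sum_le_sum fun i _ => ?_)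
    refine (Xb_sum B _ _).trans ?_
    have e : ∑ j, (if i = j then 0 else
          1536 * Real.pi * (rj ν n N i * rj ν n N j) * (N0 (s i) * N0 (s j)))
        * Real.exp (-((rj ν n N i ^ 2 + rj ν n N j ^ 2) * t))
        = ∑ j ∈ Finset.univ.erase i, (if i = j then 0 else
          1536 * Real.pi * (rj ν n N i * rj ν n N j) * (N0 (s i) * N0 (s j)))
        * Real.exp (-((rj ν n N i ^ 2 + rj ν n N j ^ 2) * t)) := by
      rw [Finset.sum_erase]
      simp
    simp only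
    rw [e]
    refine Finset.sum_le_sum fun j hj => ?_
    have hij : i ≠ j := fun h => (Finset.mem_erase.1 hj).1 h.symm
    rw [if_neg hij, Xb_smul, abs_of_nonneg (mul_nonneg (am_nonneg D hν hN t i)
      (am_nonneg D hν hN t j))]
    have h1 := sum_nl_le0 (lw D (N := N) i) (lw D (N := N) j) B
    have h2 : N0 (ww n s N i) * N0 (ww n s N j) ≤ (8 * N0 (s i)) * (8 * N0 (s j)) :=
      mul_le_mul (N0ww D i) (N0ww D j) (N0_nonneg _) (by have := N0_nonneg (s i); positivity)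
    have h3 : Xb B (nl (ww n s N i) (ww n s N j))
        ≤ 24 * Real.pi * ((8 * N0 (s i)) * (8 * N0 (s j))) :=
      h1.trans (mul_le_mul_of_nonneg_left h2 (by positivity))
    refine (mul_le_mul_of_nonneg_left h3 (mul_nonneg (am_nonneg D hν hN t i)
      (am_nonneg D hν hN t j))).trans (le_of_eq ?_)
    have h4 : Real.exp (-((rj ν n N i ^ 2 + rj ν n N j ^ 2) * t))
        = Real.exp (-(rj ν n N i ^ 2 * t)) * Real.exp (-(rj ν n N j ^ 2 * t)) := by
      rw [← Real.exp_add]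
      congr 1
      ring
    rw [h4, am, am]
    ring
  -- sum up
  have hsplit : Xb B (∑ j, ((am ν n N t j ^ 2 : ℝ) : ℂ) •
        (nl (ww n s N j) (ww n s N j) - (2 : ℂ) • qq s j)
        + ((-(ls ν N * Real.exp (-(ls ν N * t))) : ℝ) : ℂ) • z'
        + dis ν (lo ν n s z' N t) + ∑ j, ((am ν n N t j : ℝ) : ℂ) • rt ν n s N j
        + nl (lo ν n s z' N t) (lo ν n s z' N t + hi ν n s N t)
        + nl (hi ν n s N t) (lo ν n s z' N t)
        + ∑ i, ∑ j ∈ Finset.univ.erase i,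
          ((am ν n N t i * am ν n N t j : ℝ) : ℂ) • nl (ww n s N i) (ww n s N j))
      ≤ Xb B (∑ j, ((am ν n N t j ^ 2 : ℝ) : ℂ) •
        (nl (ww n s N j) (ww n s N j) - (2 : ℂ) • qq s j))
        + Xb B (((-(ls ν N * Real.exp (-(ls ν N * t))) : ℝ) : ℂ) • z')
        + Xb B (dis ν (lo ν n s z' N t)) + Xb B (∑ j, ((am ν n N t j : ℝ) : ℂ) • rt ν n s N j)
        + Xb B (nl (lo ν n s z' N t) (lo ν n s z' N t + hi ν n s N t))
        + Xb B (nl (hi ν n s N t) (lo ν n s z' N t))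
        + Xb B (∑ i, ∑ j ∈ Finset.univ.erase i,
          ((am ν n N t i * am ν n N t j : ℝ) : ℂ) • nl (ww n s N i) (ww n s N j)) :=
    (Xb_add B _ _).trans (add_le_add ((Xb_add B _ _).trans (add_le_add ((Xb_add B _ _).trans
      (add_le_add ((Xb_add B _ _).trans (add_le_add ((Xb_add B _ _).trans (add_le_add
        (Xb_add B _ _) le_rfl)) le_rfl)) le_rfl)) le_rfl)) le_rfl)
  refine hsplit.trans ?_
  have eg : ge (ga ν n s z' Λ X' N) (gm ν n N) t
      = ∑ j, rj ν n N j ^ 2 * (2976 * Real.pi * Λ / N * N0 (s j) ^ 2)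
        * Real.exp (-(2 * rj ν n N j ^ 2 * t))
      + ((ls ν N * X' + 4 * Real.pi ^ 2 * ν * Q1 s z' + 24 * Real.pi * Q0 s z' ^ 2)
        * Real.exp (-(ls ν N * t))
      + (∑ j, rj ν n N j * (192 * Real.pi ^ 2 * ν * Λ * N0 (s j)
        + 384 * Real.pi * Q0 s z' * N0 (s j)) * Real.exp (-(rj ν n N j ^ 2 * t))
      + ∑ p : Fin J × Fin J, (if p.1 = p.2 then 0 else
          1536 * Real.pi * (rj ν n N p.1 * rj ν n N p.2) * (N0 (s p.1) * N0 (s p.2)))
        * Real.exp (-((rj ν n N p.1 ^ 2 + rj ν n N p.2 ^ 2) * t)))) := by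
    rw [ge, Fintype.sum_sum_type, Fintype.sum_sum_type, Fintype.sum_sum_type]
    simp only [ga, gm, Sum.elim_inl, Sum.elim_inr, Finset.univ_unique, Finset.sum_singleton]
  have e34 : ∑ j, rj ν n N j * (192 * Real.pi ^ 2 * ν * Λ * N0 (s j)
        + 384 * Real.pi * Q0 s z' * N0 (s j)) * Real.exp (-(rj ν n N j ^ 2 * t))
      = ∑ j, am ν n N t j * (192 * Real.pi ^ 2 * ν * Λ * N0 (s j))
        + ∑ j, am ν n N t j * (384 * Real.pi * Q0 s z' * N0 (s j)) := by
    rw [← Finset.sum_add_distrib]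
    refine Finset.sum_congr rfl fun j _ => ?_
    rw [am]
    ring
  rw [eg, e34]
  have := add_le_add (add_le_add (add_le_add (add_le_add (add_le_add t1 t2) t3) t4) t56) t7
  refine le_trans (le_of_eq ?_) (this.trans (le_of_eq ?_)) <;> ring

end

end Pool.Agent.Run7.h969.GG
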