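import Pool.Agent.Run7.h969.GG.Unit

/-!
Bounds of the waves.
-/

set_option autoImplicit false

open MeasureTheory Set Filter Topology
open scoped ContDiff ComplexConjugate NNReal

namespace Pool.Agent.Run7.h969.GG

open H459R3.NS Pool.Agent.Run7.h782 Pool.Agent.Run7.h782.GD Pool.Agent.Run7.h782.GS

theorem L1.wv {s : Cf} (hs : L1 s) (N : ℕ) (n : K3) : L1 (wv N n s) := by
  rw [wv_eq]
  exact (L1.sp hs _).add (L1.sp hs _)

theorem N0_wv_le {s : Cf} (hs : L1 s) (N : ℕ) (n : K3) : N0 (wv N n s) ≤ 8 * N0 s := by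
  rw [wv_eq]
  refine (N0_add_le (L1.sp hs _) (L1.sp hs _)).trans ?_
  have h1 := N0_sp_le hs (N • n)
  have h2 := N0_sp_le hs (-(N • n))
  linarith

theorem herm_wv {s : Cf} (hs : Herm s) (N : ℕ) (n : K3) : Herm (wv N n s) := by
  intro k i
  have e1 : s (-k - N • n) = fun i => conj (s (k + N • n) i) := by
    have : -k - N • n = -(k + N • n) := by abel
    rw [this]
    exact funext fun i => hs _ i
  have e2 : s (-k + N • n) = fun i => conj (s (k - N • n) i) := by
    have : -k + N • n = -(k - N • n) := by abel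
    rw [this]
    exact funext fun i => hs _ i
  rw [wv, wv, e1, e2, prj_neg_conj, prj_neg_conj, Pi.add_apply, Pi.add_apply, map_add]
  exact add_comm _ _

theorem dv_wv (s : Cf) (N : ℕ) (n : K3) : Dv (wv N n s) := by
  intro k
  rw [wv, kd_add, kd_prj, kd_prj, add_zero]

section
variable {s : Cf} {P : Finset K3} {n : K3} {Λ : ℝ} {N : ℕ}

theorem len_le_add' (k p : K3) : len k ≤ len (k - p) + len p := by
  have h := len_le_add k p
  linarith

/-- The frequencies of the waves. -/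
theorem wv_freq (hn0 : n ≠ 0) (hP : ∀ p ∉ P, s p = 0) (hΛ : ∀ p ∈ P, len p ≤ Λ)
    {k : K3} (hk : wv N n s k ≠ 0) : |len k - len (N • n)| ≤ Λ := by
  have h : s (k - N • n) ≠ 0 ∨ s (k + N • n) ≠ 0 := by
    by_contra h
    rw [not_or, not_not, not_not] at h
    apply hk
    rw [wv, h.1, h.2, prj_zero, add_zero]
  rcases h with h | h
  · have hp := supp_bd hP hΛ h
    have h1 := len_le_add' k (N • n)
    have h2 := len_le_add' (N • n) k
    have h3 : len (N • n - k) = len (k - N • n) := by rw [← len_neg]; congr 1; abel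
    rw [abs_le]
    constructor <;> linarith
  · have hp := supp_bd hP hΛ h
    have h1 := len_le_add' k (-(N • n))
    have h2 := len_le_add' (-(N • n)) k
    have h3 : len (-(N • n) - k) = len (k - -(N • n)) := by rw [← len_neg]; congr 1; abel
    have h4 : len (k - -(N • n)) = len (k + N • n) := by rw [sub_neg_eq_add]
    rw [len_neg] at h1 h2
    rw [abs_le]
    constructor <;> linarith

variable (hn0 : n ≠ 0) (hP : ∀ p ∉ P, s p = 0) (hΛ : ∀ p ∈ P, len p ≤ Λ) (hΛ0 : 0 ≤ Λ)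
  (hN : 2 * Λ ≤ N) (hN0 : 0 < N)
include hn0 hP hΛ hN

omit hP hΛ in
theorem lm_ge : 2 * Λ ≤ len (N • n) := by
  rw [len_nsmul]
  have h1 := one_le_len hn0
  have h2 : (0 : ℝ) ≤ N := Nat.cast_nonneg N
  nlinarith

theorem wv_ge {k : K3} (hk : wv N n s k ≠ 0) : len (N • n) / 2 ≤ len k := by
  have h1 := abs_le.1 (wv_freq hn0 hP hΛ hk)
  have h2 := lm_ge (Λ := Λ) hn0 hN
  linarith [h1.1]

theorem wv_le (hΛ0 : 0 ≤ Λ) {k : K3} (hk : wv N n s k ≠ 0) : len k ≤ 2 * len (N • n) := by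
  have h1 := abs_le.1 (wv_freq hn0 hP hΛ hk)
  have h2 := lm_ge (Λ := Λ) hn0 hN
  linarith [h1.2]

include hN0

theorem wv_inv (k : K3) : ‖wv N n s k‖ / len k ≤ 2 / len (N • n) * ‖wv N n s k‖ := by
  by_cases hk : wv N n s k = 0
  · rw [hk]
    simp
  have h1 := wv_ge hn0 hP hΛ hN hk
  have h2 : 0 < len (N • n) := by
    rw [len_nsmul]
    have : (0 : ℝ) < N := by exact_mod_cast hN0
    have := len_pos hn0
    positivity
  have h3 : 0 < len k := by linarith
  have h4 := norm_nonneg (wv N n s k)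
  rw [div_le_iff₀ h3, div_mul_eq_mul_div, div_mul_eq_mul_div, le_div_iff₀ h2]
  nlinarith

theorem sum_wv_inv (B : Finset K3) :
    ∑ k ∈ B, ‖wv N n s k‖ / len k ≤ 16 / len (N • n) * N0 s := by
  have hs : L1 s := L1.of_supp hP
  have h0 := len_nonneg (N • n)
  calc ∑ k ∈ B, ‖wv N n s k‖ / len k ≤ ∑ k ∈ B, 2 / len (N • n) * ‖wv N n s k‖ :=
        Finset.sum_le_sum fun k _ => wv_inv hn0 hP hΛ hN hN0 k
    _ = 2 / len (N • n) * ∑ k ∈ B, ‖wv N n s k‖ := by rw [Finset.mul_sum]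
    _ ≤ 2 / len (N • n) * (8 * N0 s) := by
        refine mul_le_mul_of_nonneg_left (le_trans ?_ (N0_wv_le hs N n)) (by positivity)
        rw [N0_eq]
        exact (L1.wv hs N n).sum_le_tsum B fun k _ => norm_nonneg _
    _ = _ := by ring

omit hN0 in
theorem sum_wv_len (hΛ0 : 0 ≤ Λ) (B : Finset K3) :
    ∑ k ∈ B, len k * ‖wv N n s k‖ ≤ 16 * len (N • n) * N0 s := by
  have hs : L1 s := L1.of_supp hP
  have h0 := len_nonneg (N • n)
  calc ∑ k ∈ B, len k * ‖wv N n s k‖ ≤ ∑ k ∈ B, 2 * len (N • n) * ‖wv N n s k‖ := by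
        refine Finset.sum_le_sum fun k _ => ?_
        by_cases hk : wv N n s k = 0
        · rw [hk]
          simp
        · exact mul_le_mul_of_nonneg_right (wv_le hn0 hP hΛ hN hΛ0 hk) (norm_nonneg _)
    _ = 2 * len (N • n) * ∑ k ∈ B, ‖wv N n s k‖ := by rw [Finset.mul_sum]
    _ ≤ 2 * len (N • n) * (8 * N0 s) := by
        refine mul_le_mul_of_nonneg_left (le_trans ?_ (N0_wv_le hs N n)) (by positivity)
        rw [N0_eq]
        exact (L1.wv hs N n).sum_le_tsum B fun k _ => norm_nonneg _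
    _ = _ := by ring

theorem sum_wv_rate {ν : ℝ} (hν : 0 ≤ ν) (hΛ0 : 0 ≤ Λ) (B : Finset K3) :
    ∑ k ∈ B, ‖((lam ν k - lam ν (N • n) : ℝ) : ℂ) • wv N n s k‖ / len k
      ≤ 192 * Real.pi ^ 2 * ν * Λ * N0 s := by
  have hpi := Real.pi_pos
  have hs : L1 s := L1.of_supp hP
  have key : ∀ k, ‖((lam ν k - lam ν (N • n) : ℝ) : ℂ) • wv N n s k‖ / len k
      ≤ 24 * Real.pi ^ 2 * ν * Λ * ‖wv N n s k‖ := by
    intro k
    by_cases hk : wv N n s k = 0
    · rw [hk]
      simp
    have h1 := wv_freq hn0 hP hΛ hk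
    have h2 := wv_ge hn0 hP hΛ hN hk
    have h5 := lm_ge (Λ := Λ) hn0 hN
    have h2' : 0 < len (N • n) := by
      rw [len_nsmul]
      have : (0 : ℝ) < N := by exact_mod_cast hN0
      have := len_pos hn0
      positivity
    have h3 : 0 < len k := by linarith
    have h4 := norm_nonneg (wv N n s k)
    rw [norm_smul, Complex.norm_real, Real.norm_eq_abs, div_le_iff₀ h3]
    have e : lam ν k - lam ν (N • n)
        = 4 * Real.pi ^ 2 * ν * ((len k - len (N • n)) * (len k + len (N • n))) := by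
      rw [lam, lam, ← len_sq, ← len_sq]
      ring
    rw [e, abs_mul, abs_of_nonneg (by positivity : 0 ≤ 4 * Real.pi ^ 2 * ν), abs_mul,
      abs_of_nonneg (by linarith : 0 ≤ len k + len (N • n))]
    have h6 : |len k - len (N • n)| * (len k + len (N • n)) ≤ Λ * (3 * len k * 2) := by
      have h7 : len k + len (N • n) ≤ 3 * len k * 2 := by linarith
      exact mul_le_mul h1 h7 (by linarith) hΛ0
    calc 4 * Real.pi ^ 2 * ν * (|len k - len (N • n)| * (len k + len (N • n)))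
          * ‖wv N n s k‖
        ≤ 4 * Real.pi ^ 2 * ν * (Λ * (3 * len k * 2)) * ‖wv N n s k‖ :=
          mul_le_mul_of_nonneg_right (mul_le_mul_of_nonneg_left h6 (by positivity)) h4
      _ = _ := by ring
  calc ∑ k ∈ B, ‖((lam ν k - lam ν (N • n) : ℝ) : ℂ) • wv N n s k‖ / len k
      ≤ ∑ k ∈ B, 24 * Real.pi ^ 2 * ν * Λ * ‖wv N n s k‖ := Finset.sum_le_sum fun k _ => key k
    _ = 24 * Real.pi ^ 2 * ν * Λ * ∑ k ∈ B, ‖wv N n s k‖ := by rw [Finset.mul_sum]
    _ ≤ 24 * Real.pi ^ 2 * ν * Λ * (8 * N0 s) := by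
        refine mul_le_mul_of_nonneg_left (le_trans ?_ (N0_wv_le hs N n)) (by positivity)
        rw [N0_eq]
        exact (L1.wv hs N n).sum_le_tsum B fun k _ => norm_nonneg _
    _ = _ := by ring

end

/-- The support of the waves. -/
theorem wv_supp {s : Cf} {P : Finset K3} (hP : ∀ p ∉ P, s p = 0) (N : ℕ) (n : K3) :
    ∃ Q : Finset K3, ∀ k ∉ Q, wv N n s k = 0 := by
  classical
  refine ⟨P.image (fun p => p + N • n) ∪ P.image (fun p => p - N • n), fun k hk => ?_⟩
  rw [Finset.mem_union, not_or, Finset.mem_image, Finset.mem_image] at hk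
  have h1 : s (k - N • n) = 0 := hP _ fun h => hk.1 ⟨_, h, by abel⟩
  have h2 : s (k + N • n) = 0 := hP _ fun h => hk.2 ⟨_, h, by abel⟩
  rw [wv, h1, h2, prj_zero, add_zero]

end Pool.Agent.Run7.h969.GG
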